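import Mathlib
import Pool.Agent.TH888.W2.SBak
import Pool.Agent.TH888.B1.Bak

/-!
Auxiliary statements for the theorem on a fixed base.
-/

set_option autoImplicit false

namespace Pool.Agent.TH888.F

open Finset

/-- bootstrapping: a bound by a power of `max (S₀, log X)` gives a bound by a power of `S₀` -/
theorem boot (C κ c : ℕ) : ∃ C' : ℕ, ∀ S₀ X : ℕ, 1 ≤ S₀ →
    (∀ S, S₀ ≤ S → c * X ≤ 2 ^ S → X ≤ C * S ^ κ) → X ≤ C' * S₀ ^ κ := by
  obtain ⟨L₀, hL₀⟩ := Pool.Agent.TH888.B1.growth (2 * c * C) κ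
  refine ⟨C * (L₀ + 1) ^ κ + C, fun S₀ X hS₀ h => ?_⟩
  rcases Nat.eq_zero_or_pos (c * X) with h0 | hpos
  · have h1 := h S₀ le_rfl (by rw [h0]; exact Nat.zero_le _)
    refine h1.trans (Nat.mul_le_mul_right _ (by omega))
  set S := max S₀ (Nat.log 2 (c * X) + 1) with hS
  have hXS : c * X ≤ 2 ^ S := by
    have h1 : c * X < 2 ^ (Nat.log 2 (c * X) + 1) := Nat.lt_pow_succ_log_self (by norm_num) _
    exact h1.le.trans (Nat.pow_le_pow_right (by norm_num) (le_max_right _ _))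
  have h1 := h S (le_max_left _ _) hXS
  have hS0p : 1 ≤ S₀ ^ κ := Nat.one_le_pow _ _ hS₀
  rcases le_total (Nat.log 2 (c * X) + 1) S₀ with h2 | h2
  · rw [hS, max_eq_left h2] at h1
    refine h1.trans (Nat.mul_le_mul_right _ (by omega))
  · have hSL : S = Nat.log 2 (c * X) + 1 := max_eq_right h2
    have h3 : 2 ^ (Nat.log 2 (c * X)) ≤ c * X := Nat.pow_log_le_self 2 hpos.ne'
    have h4 : 2 ^ S ≤ 2 * c * C * S ^ κ := by
      calc 2 ^ S = 2 * 2 ^ (Nat.log 2 (c * X)) := by rw [hSL, pow_succ]; ring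
        _ ≤ 2 * (c * X) := Nat.mul_le_mul_left _ h3
        _ ≤ 2 * (c * (C * S ^ κ)) := Nat.mul_le_mul_left _ (Nat.mul_le_mul_left _ h1)
        _ = _ := by ring
    have h5 := hL₀ S h4
    calc X ≤ C * S ^ κ := h1
      _ ≤ C * (L₀ + 1) ^ κ := Nat.mul_le_mul_left _ (Nat.pow_le_pow_left (by omega) _)
      _ ≤ C * (L₀ + 1) ^ κ + C := Nat.le_add_right _ _
      _ ≤ _ := Nat.le_mul_of_pos_right _ hS0p

/-- counting with a relation -/
theorem count_rel {ι : Type*} (E : Set ℕ) (I : Finset ι) (R : ι → ℕ → Prop)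
    (h1 : ∀ B ∈ E, ∃ i ∈ I, R i B) (h2 : ∀ i ∈ I, ∀ B B', R i B → R i B' → B = B') :
    E.Finite ∧ E.ncard ≤ I.card := by
  classical
  set g : ι → ℕ := fun i => if h : ∃ B, R i B then h.choose else 0 with hg
  have hsub : E ⊆ ((I.image g : Finset ℕ) : Set ℕ) := by
    intro B hB
    obtain ⟨i, hi, hR⟩ := h1 B hB
    rw [mem_coe, mem_image]
    refine ⟨i, hi, ?_⟩
    have h3 : ∃ B, R i B := ⟨B, hR⟩
    simp only [hg, dif_pos h3]
    exact h2 i hi _ _ h3.choose_spec hR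
  refine ⟨(Finset.finite_toSet _).subset hsub, ?_⟩
  calc E.ncard ≤ ((I.image g : Finset ℕ) : Set ℕ).ncard :=
        Set.ncard_le_ncard hsub (Finset.finite_toSet _)
    _ = (I.image g).card := Set.ncard_coe_finset _
    _ ≤ I.card := Finset.card_image_le

/-- coprime factors of a power, for natural numbers -/
theorem pow_factors {a b B y : ℕ} (hy : 0 < y) (hco : Nat.Coprime a b) (h : a * b = B ^ y) :
    ∃ α β : ℕ, a = α ^ y ∧ b = β ^ y ∧ α * β = B := by
  obtain ⟨α, hα⟩ := exists_eq_pow_of_mul_eq_pow (show IsUnit (gcd a b) from by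
    rw [Nat.isUnit_iff]; exact hco) h
  obtain ⟨β, hβ⟩ := exists_eq_pow_of_mul_eq_pow (show IsUnit (gcd b a) from by
    rw [Nat.isUnit_iff]; exact hco.symm) (show b * a = B ^ y by rw [mul_comm]; exact h)
  refine ⟨α, β, hα, hβ, ?_⟩
  rw [hα, hβ, ← mul_pow] at h
  exact Nat.pow_left_injective (n := y) hy.ne' h

end Pool.Agent.TH888.F
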