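import Mathlib
import Pool.Agent.TH888.F.Boot

/-!
`B ^ y = ± (Z ^ q - W ^ q)` for an odd prime `q`: factorisation.
-/

set_option autoImplicit false

namespace Pool.Agent.TH888.F

open Finset

/-- `(Z ^ q - W ^ q) / (Z - W)` -/
def Ph (q : ℕ) (Z W : ℤ) : ℤ := ∑ i ∈ range q, Z ^ i * W ^ (q - 1 - i)

theorem ph_mul (q : ℕ) (Z W : ℤ) : Ph q Z W * (Z - W) = Z ^ q - W ^ q := by
  unfold Ph
  exact (Commute.all Z W).geom_sum₂_mul q

/-- `Φ ≡ q W ^ (q-1)` modulo a divisor of `Z - W` -/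
theorem ph_mod {q : ℕ} {Z W m : ℤ} (h : m ∣ Z - W) : m ∣ Ph q Z W - q * W ^ (q - 1) := by
  have h1 : (q : ℤ) * W ^ (q - 1) = ∑ i ∈ range q, W ^ i * W ^ (q - 1 - i) := by
    rw [Finset.sum_congr rfl (fun i hi => by
      rw [← pow_add, show i + (q - 1 - i) = q - 1 by
        have := mem_range.mp hi; omega])]
    simp
  rw [h1]
  unfold Ph
  rw [← Finset.sum_sub_distrib]
  refine Finset.dvd_sum fun i _ => ?_
  rw [← sub_mul]
  exact ((h.trans (sub_dvd_pow_sub_pow Z W i))).mul_right _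

/-- `Φ ≡ Z ^ (q-1)` modulo a divisor of `W` -/
theorem ph_mod' {q : ℕ} (hq : 0 < q) {Z W m : ℤ} (h : m ∣ W) : m ∣ Ph q Z W - Z ^ (q - 1) := by
  obtain ⟨k, rfl⟩ : ∃ k, q = k + 1 := ⟨q - 1, by omega⟩
  unfold Ph
  rw [Finset.sum_range_succ, show k + 1 - 1 - k = 0 by omega, pow_zero, mul_one,
    show k + 1 - 1 = k by omega, add_sub_cancel_right]
  refine Finset.dvd_sum fun i hi => ?_
  have h1 : k - i ≠ 0 := by have := mem_range.mp hi; omega
  exact (h.trans (dvd_pow_self W h1)).mul_left _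

theorem sgn_mul {s : ℤ} (hs : s = 1 ∨ s = -1) : s * s = 1 := by
  rcases hs with rfl | rfl <;> norm_num

/-- the factorisation -/
theorem odd_fact {q : ℕ} (hq : q.Prime) (hq2 : q ≠ 2) {Z W s : ℤ} {B y : ℕ} (hs : s = 1 ∨ s = -1)
    (hy : 0 < y) (hcop : IsCoprime Z W) (hB : 0 < B) (h : (B : ℤ) ^ y = s * (Z ^ q - W ^ q)) :
    ∃ t α β D : ℕ, (t = 1 ∨ t = q ∧ q ∣ B) ∧ α * β = B ∧ Nat.Coprime α β ∧ Z - W = s * D ∧
      t * D = α ^ y ∧ Ph q Z W = t * β ^ y ∧ (∀ r : ℕ, r.Prime → r ∣ D → (r : ℤ) ∣ Ph q Z W → r = q) := by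
  have hodd : Odd q := hq.odd_of_ne_two hq2
  have hss := sgn_mul hs
  have hpos : (0 : ℤ) < (B : ℤ) ^ y := by positivity
  -- positivity of the factors
  have hprod : (s * (Z - W)) * Ph q Z W = (B : ℤ) ^ y := by
    rw [h, ← ph_mul]; ring
  have hDpos : 0 < s * (Z - W) := by
    by_contra hcon
    push Not at hcon
    have hmono := hodd.strictMono_pow (R := ℤ)
    have : s * (Z ^ q - W ^ q) ≤ 0 := by
      rcases hs with rfl | rfl
      · have h1 : Z ≤ W := by linarith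
        have h2 : _ ≤ _ := hmono.monotone h1
        linarith
      · have h1 : W ≤ Z := by linarith
        have h2 : _ ≤ _ := hmono.monotone h1
        linarith
    linarith
  have hFpos : 0 < Ph q Z W := by
    by_contra hcon
    push Not at hcon
    have := mul_nonpos_of_nonneg_of_nonpos hDpos.le hcon
    linarith
  obtain ⟨D, hD⟩ : ∃ D : ℕ, (D : ℤ) = s * (Z - W) := ⟨(s * (Z - W)).toNat, Int.toNat_of_nonneg hDpos.le⟩
  obtain ⟨F, hF⟩ : ∃ F : ℕ, (F : ℤ) = Ph q Z W := ⟨(Ph q Z W).toNat, Int.toNat_of_nonneg hFpos.le⟩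
  have hZW : Z - W = s * D := by rw [hD, ← mul_assoc, hss, one_mul]
  have hDF : D * F = B ^ y := by
    have : (D : ℤ) * F = (B : ℤ) ^ y := by rw [hD, hF, hprod]
    exact_mod_cast this
  have hD0 : 0 < D := by
    have : (0 : ℤ) < D := by rw [hD]; exact hDpos
    exact_mod_cast this
  have hF0 : 0 < F := by
    have : (0 : ℤ) < F := by rw [hF]; exact hFpos
    exact_mod_cast this
  have hdW : ∀ g : ℕ, g ∣ D → IsCoprime (g : ℤ) W := by
    intro g hg
    have h1 : (g : ℤ) ∣ Z - W := by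
      rw [hZW]; exact (Int.natCast_dvd_natCast.mpr hg).mul_left _
    obtain ⟨k, hk⟩ := h1
    obtain ⟨a, b, hab⟩ := hcop
    exact ⟨a * k, a + b, by linear_combination hab - a * hk⟩
  -- the common divisors
  have hgcd : ∀ g : ℕ, g ∣ D → g ∣ F → g ∣ q := by
    intro g hg1 hg2
    have h1 : (g : ℤ) ∣ Z - W := by
      rw [hZW]; exact (Int.natCast_dvd_natCast.mpr hg1).mul_left _
    have h2 := ph_mod (q := q) h1
    have h3 : (g : ℤ) ∣ Ph q Z W := by rw [← hF]; exact Int.natCast_dvd_natCast.mpr hg2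
    have h4 : (g : ℤ) ∣ q * W ^ (q - 1) := (dvd_sub_right h3).mp h2
    have h5 := ((hdW g hg1).pow_right (n := q - 1)).dvd_of_dvd_mul_right h4
    exact Int.natCast_dvd_natCast.mp h5
  have hlast : ∀ r : ℕ, r.Prime → r ∣ D → (r : ℤ) ∣ Ph q Z W → r = q := by
    intro r hr h1 h2
    have h3 : r ∣ F := by
      rw [← hF] at h2; exact Int.natCast_dvd_natCast.mp h2
    exact (Nat.prime_dvd_prime_iff_eq hr hq).mp (hgcd r h1 h3)
  rcases (Nat.dvd_prime hq).mp (hgcd _ (Nat.gcd_dvd_left D F) (Nat.gcd_dvd_right D F)) with h1 | h1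
  · obtain ⟨α, β, hα, hβ, hαβ⟩ := pow_factors hy h1 hDF
    refine ⟨1, α, β, D, Or.inl rfl, hαβ, ?_, hZW, by rw [one_mul, hα], ?_, hlast⟩
    · have h2 : Nat.Coprime (α ^ y) (β ^ y) := by rw [← hα, ← hβ]; exact h1
      exact (Nat.coprime_pow_left_iff hy _ _).mp ((Nat.coprime_pow_right_iff hy _ _).mp h2)
    · rw [← hF, hβ]; push_cast; ring
  · -- the common divisor is `q`
    have hqD : q ∣ D := h1 ▸ Nat.gcd_dvd_left D F
    have hqF : q ∣ F := h1 ▸ Nat.gcd_dvd_right D F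
    obtain ⟨D', hD'⟩ := hqD
    obtain ⟨F', hF'⟩ := hqF
    have hqB : q ∣ B := hq.dvd_of_dvd_pow (by rw [← hDF, hF']; exact ⟨D * F', by ring⟩ : q ∣ B ^ y)
    have hqF2 : ¬ q ∣ F' := by
      rintro ⟨F'', hF''⟩
      -- `q ^ 2 ∣ Φ`
      have h2 : (q : ℤ) ^ 2 ∣ Ph q Z W := by
        rw [← hF, hF', hF'']
        exact ⟨F'', by push_cast; ring⟩
      have h3 : (q : ℤ) ^ 2 ∣ Ph q Z W - q * W ^ (q - 1) := by
        have h4 := odd_sq_dvd_geom_sum₂_sub W (s * (D' : ℤ)) hodd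
        have h5 : W + (q : ℤ) * (s * D') = Z := by
          have : Z = W + s * D := by rw [← hZW]; ring
          rw [this, hD']; push_cast; ring
        rw [h5] at h4
        exact h4
      have h4 : (q : ℤ) ^ 2 ∣ q * W ^ (q - 1) := (dvd_sub_right h2).mp h3
      rw [pow_two] at h4
      have h5 : (q : ℤ) ∣ W ^ (q - 1) :=
        (mul_dvd_mul_iff_left (by exact_mod_cast hq.ne_zero)).mp h4
      have h6 : (q : ℤ) ∣ W := (Nat.prime_iff_prime_int.mp hq).dvd_of_dvd_pow h5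
      have h7 := hdW q (Dvd.intro _ hD'.symm)
      have h8 : IsUnit (q : ℤ) := h7.isUnit_of_dvd' dvd_rfl h6
      exact (Nat.prime_iff_prime_int.mp hq).not_isUnit h8
    have hcF : Nat.Coprime D' F' := by
      have h2 : Nat.gcd D F = q * Nat.gcd D' F' := by rw [hD', hF', Nat.gcd_mul_left]
      rw [h1] at h2
      have h3 : q * Nat.gcd D' F' = q * 1 := by rw [← h2, mul_one]
      exact Nat.eq_of_mul_eq_mul_left hq.pos h3
    have hcq : Nat.Coprime q F' := (Nat.Prime.coprime_iff_not_dvd hq).mpr hqF2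
    have hco : Nat.Coprime (q * D) F' := by
      rw [hD']
      exact Nat.Coprime.mul_left hcq (Nat.Coprime.mul_left hcq hcF)
    have hpr : (q * D) * F' = B ^ y := by rw [← hDF, hF']; ring
    obtain ⟨α, β, hα, hβ, hαβ⟩ := pow_factors hy hco hpr
    refine ⟨q, α, β, D, Or.inr ⟨rfl, hqB⟩, hαβ, ?_, hZW, hα, ?_, hlast⟩
    · have h2 : Nat.Coprime (α ^ y) (β ^ y) := by rw [← hα, ← hβ]; exact hco
      exact (Nat.coprime_pow_left_iff hy _ _).mp ((Nat.coprime_pow_right_iff hy _ _).mp h2)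
    · rw [← hF, hF', hβ]; push_cast; ring

/-- prime factors of `Φ` -/
theorem ph_prime {q p : ℕ} (hq : q.Prime) (hp : p.Prime) (hp1 : ¬ q ∣ p - 1) {Z W : ℤ}
    (hcop : IsCoprime Z W) (h : (p : ℤ) ∣ Ph q Z W) : (p : ℤ) ∣ Z - W := by
  have : Fact p.Prime := ⟨hp⟩
  have h1 : (p : ℤ) ∣ Z ^ q - W ^ q := by rw [← ph_mul]; exact h.mul_right _
  have e1 : ((Z : ZMod p)) ^ q = (W : ZMod p) ^ q := by
    have := (ZMod.intCast_zmod_eq_zero_iff_dvd _ p).mpr h1
    push_cast at this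
    exact sub_eq_zero.mp this
  have hW : (W : ZMod p) ≠ 0 := by
    intro h0
    rw [h0, zero_pow hq.ne_zero] at e1
    have h2 : (Z : ZMod p) = 0 := pow_eq_zero_iff hq.ne_zero |>.mp e1
    have h3 : (p : ℤ) ∣ W := (ZMod.intCast_zmod_eq_zero_iff_dvd _ p).mp h0
    have h4 : (p : ℤ) ∣ Z := (ZMod.intCast_zmod_eq_zero_iff_dvd _ p).mp h2
    exact (Nat.prime_iff_prime_int.mp hp).not_isUnit (hcop.isUnit_of_dvd' h4 h3)
  have e2 : ((Z : ZMod p) / W) ^ q = 1 := by rw [div_pow, e1, div_self (pow_ne_zero _ hW)]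
  have e3 : (Z : ZMod p) / W = 1 := by
    by_contra hne
    have h2 : orderOf ((Z : ZMod p) / W) = q := by
      have : Fact q.Prime := ⟨hq⟩
      exact orderOf_eq_prime e2 hne
    have h3 : (Z : ZMod p) / W ≠ 0 := by
      intro h0
      rw [h0, zero_pow hq.ne_zero] at e2
      exact zero_ne_one e2
    have h4 := ZMod.orderOf_dvd_card_sub_one h3
    rw [h2] at h4
    exact hp1 h4
  have e4 : (Z : ZMod p) = W := by
    rwa [div_eq_one_iff_eq hW] at e3
  rw [← ZMod.intCast_zmod_eq_zero_iff_dvd]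
  push_cast
  rw [e4, sub_self]

end Pool.Agent.TH888.F
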