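import Mathlib
import Pool.Agent.TH888.F.Odd

/-!
`B ^ y = ± (Z ^ q - (± A ^ x) ^ q)` for an odd prime `q`: the exponents are bounded by a power of
`log B`, and a factor of `B` of size `B ^ (1/2)` determines `B`.
-/

set_option autoImplicit false

namespace Pool.Agent.TH888.F

open Finset
open Pool.Agent.TH888.W2 (Su baker_su)

theorem sgn_even {s : ℤ} (hs : s = 1 ∨ s = -1) {k : ℕ} (hk : Even k) : s ^ k = 1 := by
  rcases hs with rfl | rfl
  · exact one_pow _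
  · exact hk.neg_one_pow

theorem size_bound {q : ℕ} (hq : q.Prime) (hq2 : q ≠ 2) {Z A x y B D : ℕ} {s τ : ℤ}
    (hB : 0 < B) (hs : s = 1 ∨ s = -1) (hτ : τ = 1 ∨ τ = -1)
    (h : (B : ℤ) ^ y = s * ((Z : ℤ) ^ q - (τ * A ^ x) ^ q)) (hD : (Z : ℤ) - τ * A ^ x = s * D) :
    D ^ q ≤ 2 ^ q * B ^ y := by
  have hodd : Odd q := hq.odd_of_ne_two hq2
  obtain ⟨X, hX⟩ : ∃ X : ℕ, X = A ^ x := ⟨_, rfl⟩
  have hXc : (A : ℤ) ^ x = X := by rw [hX]; push_cast; rfl
  rw [hXc] at h hD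
  have h2q : (1 : ℕ) ≤ 2 ^ q := Nat.one_le_pow _ _ (by norm_num)
  have key : ∀ a b : ℕ, a ^ q + b ^ q ≤ (a + b) ^ q := fun a b =>
    pow_add_pow_le (Nat.zero_le _) (Nat.zero_le _) hq.ne_zero
  rcases hτ with rfl | rfl
  · rw [one_mul] at h hD
    have h1 : D ^ q ≤ B ^ y := by
      rcases hs with rfl | rfl
      · rw [one_mul] at h hD
        have h2 : Z = D + X := by
          have : (Z : ℤ) = D + X := by linarith
          exact_mod_cast this
        have h3 := key D X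
        rw [← h2] at h3
        have h4 : B ^ y + X ^ q = Z ^ q := by
          have : (B : ℤ) ^ y + X ^ q = (Z : ℤ) ^ q := by linarith
          exact_mod_cast this
        omega
      · have h2 : X = D + Z := by
          have : (X : ℤ) = D + Z := by linarith
          exact_mod_cast this
        have h3 := key D Z
        rw [← h2] at h3
        have h4 : B ^ y + Z ^ q = X ^ q := by
          have : (B : ℤ) ^ y + Z ^ q = (X : ℤ) ^ q := by linarith
          exact_mod_cast this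
        omega
    calc D ^ q ≤ B ^ y := h1
      _ ≤ _ := Nat.le_mul_of_pos_left _ h2q
  · have hneg : ((-1 : ℤ) * X) ^ q = - (X : ℤ) ^ q := by
      rw [mul_pow, hodd.neg_one_pow]; ring
    rw [hneg] at h
    have hs1 : s = 1 := by
      rcases hs with rfl | rfl
      · rfl
      · exfalso
        have h5 : (Z : ℤ) ^ q + X ^ q = - (B : ℤ) ^ y := by linarith
        have h6 : (0 : ℤ) ≤ (Z : ℤ) ^ q + X ^ q := by positivity
        have h7 : (0 : ℤ) < (B : ℤ) ^ y := by positivity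
        linarith
    subst hs1
    have h2 : D = Z + X := by
      have : (D : ℤ) = Z + X := by linarith
      exact_mod_cast this
    have h3 : B ^ y = Z ^ q + X ^ q := by
      have : (B : ℤ) ^ y = (Z : ℤ) ^ q + X ^ q := by linarith
      exact_mod_cast this
    have h4 : (Z + X) ^ q ≤ 2 ^ (q - 1) * (Z ^ q + X ^ q) :=
      add_pow_le (Nat.zero_le _) (Nat.zero_le _) q
    rw [← h2, ← h3] at h4
    exact h4.trans (Nat.mul_le_mul_right _ (Nat.pow_le_pow_right (by norm_num) (by omega)))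

theorem fact_le_one {q t : ℕ} (hq : q.Prime) (ht : t = 1 ∨ t = q) (l : ℕ) : t.factorization l ≤ 1 := by
  rcases ht with rfl | rfl
  · simp
  · rw [hq.factorization]
    by_cases h : t = l
    · rw [h]; simp
    · rw [Finsupp.single_eq_of_ne (Ne.symm h)]; exact Nat.zero_le _

theorem odd_bound (q A : ℕ) (hq : q.Prime) (hq2 : q ≠ 2) (hA : 2 ≤ A) : ∃ C κ : ℕ,
    ∀ (S₀ p B Z x y : ℕ) (s τ : ℤ), A + 4 * q ≤ S₀ → p.Prime → p ≠ q → ¬ q ∣ p - 1 → p ∣ B →
      p ≤ S₀ → 0 < B → B ≤ 2 ^ S₀ → 0 < x → 0 < y → Nat.Coprime A B → (s = 1 ∨ s = -1) →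
      (τ = 1 ∨ τ = -1) → (B : ℤ) ^ y = s * ((Z : ℤ) ^ q - (τ * (A : ℤ) ^ x) ^ q) →
      x ≤ C * S₀ ^ κ ∧ y ≤ C * S₀ ^ κ ∧ ∃ t α D : ℕ, (t = 1 ∨ t = q) ∧ t * D = α ^ y ∧
        (Z : ℤ) - τ * (A : ℤ) ^ x = s * D ∧ α ^ 2 ≤ (2 * q) ^ q * B := by
  obtain ⟨C₁, κ, hbak⟩ := baker_su {q}
  obtain ⟨C, hboot⟩ := boot (2 * C₁) κ (4 * q)
  obtain ⟨ℓ, hℓ, hℓA⟩ := Nat.exists_prime_and_dvd (show A ≠ 1 by omega)
  have hq3 : 3 ≤ q := by
    have := hq.two_le
    omega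
  refine ⟨C, κ, ?_⟩
  intro S₀ p B Z x y s τ hS₀ hp hpq hp1 hpB hpS hB hBS hx hy hAB hs hτ h
  have hodd : Odd q := hq.odd_of_ne_two hq2
  have heven : Even (q - 1) := by
    obtain ⟨k, hk⟩ := hodd
    exact ⟨k, by omega⟩
  have hpc : ∀ {r : ℕ}, r.Prime → r ∣ A → ¬ r ∣ B := by
    intro r hr h1 h2
    have h3 := Nat.dvd_gcd h1 h2
    rw [hAB] at h3
    exact hr.one_lt.ne' (Nat.dvd_one.mp h3)
  have hcop : IsCoprime (Z : ℤ) (τ * (A : ℤ) ^ x) := by
    have h1 : IsCoprime ((B : ℤ) ^ y) (τ * (A : ℤ) ^ x) := by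
      have h2 : IsCoprime ((B : ℤ) ^ y) ((A : ℤ) ^ x) :=
        (Nat.isCoprime_iff_coprime.mpr hAB.symm).pow
      have h3 : IsUnit τ := by
        rcases hτ with rfl | rfl
        · exact isUnit_one
        · exact isUnit_one.neg
      exact (isCoprime_mul_unit_left_right h3 _ _).mpr h2
    obtain ⟨a, b, hab⟩ := h1
    rw [h] at hab
    obtain ⟨k, hk⟩ : ∃ k, q = k + 1 := ⟨q - 1, by omega⟩
    refine ⟨a * s * Z ^ k, b - a * s * (τ * (A : ℤ) ^ x) ^ k, ?_⟩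
    rw [hk] at hab
    rw [← hab]
    ring
  obtain ⟨t, α, β, D, ht, hαβ, hcαβ, hD, htD, hPh, hlast⟩ := odd_fact hq hq2 hs hy hcop hB h
  have ht' : t = 1 ∨ t = q := by
    rcases ht with h1 | ⟨h1, -⟩
    · exact Or.inl h1
    · exact Or.inr h1
  have ht1 : 1 ≤ t := by
    rcases ht' with rfl | rfl
    · exact le_rfl
    · omega
  have htq : t ≤ q := by rcases ht' with rfl | rfl <;> omega
  have hα0 : 0 < α := Nat.pos_of_ne_zero (by rintro rfl; rw [zero_mul] at hαβ; omega)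
  have hβ0 : 0 < β := Nat.pos_of_ne_zero (by rintro rfl; rw [mul_zero] at hαβ; omega)
  have hαB : α ≤ B := by rw [← hαβ]; exact Nat.le_mul_of_pos_right _ hβ0
  have hβB : β ≤ B := by rw [← hαβ]; exact Nat.le_mul_of_pos_left _ hα0
  have hpt : ¬ p ∣ t := by
    rcases ht' with rfl | rfl
    · exact hp.one_lt.ne' ∘ Nat.dvd_one.mp
    · exact fun h1 => hpq ((Nat.prime_dvd_prime_iff_eq hp hq).mp h1)
  have hℓt : ¬ ℓ ∣ t := by
    rcases ht with rfl | ⟨rfl, h1⟩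
    · exact hℓ.one_lt.ne' ∘ Nat.dvd_one.mp
    · intro h2
      have h3 := (Nat.prime_dvd_prime_iff_eq hℓ hq).mp h2
      exact hpc hℓ hℓA (h3 ▸ h1)
  have hℓB : ¬ ℓ ∣ B := hpc hℓ hℓA
  have hℓα : ¬ ℓ ∣ α := fun h1 => hℓB (hαβ ▸ h1.mul_right β)
  have hℓβ : ¬ ℓ ∣ β := fun h1 => hℓB (hαβ ▸ h1.mul_left α)
  have hpA : ¬ p ∣ A := fun h1 => hpc hp h1 hpB
  have hpZ : IsCoprime (Z : ℤ) (τ * (A : ℤ) ^ x) → ¬ (p : ℤ) ∣ Ph q Z (τ * (A : ℤ) ^ x) := by
    intro hc h1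
    have h2 := ph_prime hq hp hp1 hc h1
    rw [hD] at h2
    have h3 : (p : ℤ) ∣ D := by
      have : (p : ℤ) ∣ s * (s * D) := h2.mul_left s
      rwa [← mul_assoc, sgn_mul hs, one_mul] at this
    exact hpq (hlast p hp (Int.natCast_dvd_natCast.mp h3) h1)
  have hpβ : ¬ p ∣ β := by
    intro h1
    apply hpZ hcop
    rw [hPh]
    have h2 : p ∣ t * β ^ y := (dvd_pow h1 hy.ne').mul_left t
    exact_mod_cast h2
  have hpα : p ∣ α := by
    rw [← hαβ] at hpB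
    exact (hp.dvd_mul.mp hpB).resolve_right hpβ
  have hpyD : p ^ y ∣ D := by
    have h1 : p ^ y ∣ t * D := by rw [htD]; exact pow_dvd_pow_of_dvd hpα y
    exact (Nat.Coprime.pow_left y ((Nat.Prime.coprime_iff_not_dvd hp).mpr hpt)).dvd_of_dvd_mul_left h1
  have hWe : (τ * (A : ℤ) ^ x) ^ (q - 1) = (A : ℤ) ^ (x * (q - 1)) := by
    rw [mul_pow, sgn_even hτ heven, one_mul, ← pow_mul]
  -- the two congruences
  have hc1 : ((p : ℤ)) ^ y ∣ (t * β ^ y : ℕ) - ((q * A ^ (x * (q - 1)) : ℕ) : ℤ) := by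
    have h1 : (p : ℤ) ^ y ∣ (Z : ℤ) - τ * (A : ℤ) ^ x := by
      rw [hD]
      exact Dvd.dvd.mul_left (by exact_mod_cast hpyD) s
    have h2 := ph_mod (q := q) h1
    rw [hPh, hWe] at h2
    push_cast
    exact h2
  have hc2 : ((ℓ : ℤ)) ^ x ∣ (t ^ q * β ^ y : ℕ) - ((α ^ (y * (q - 1)) : ℕ) : ℤ) := by
    have h1 : (ℓ : ℤ) ^ x ∣ τ * (A : ℤ) ^ x :=
      Dvd.dvd.mul_left (pow_dvd_pow_of_dvd (by exact_mod_cast hℓA) x) τ
    have h2 := ph_mod' hq.pos (Z := (Z : ℤ)) h1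
    have h3 : (ℓ : ℤ) ^ x ∣ (Z : ℤ) ^ (q - 1) - (s * (D : ℤ)) ^ (q - 1) := by
      refine dvd_trans ?_ (sub_dvd_pow_sub_pow _ _ _)
      have : (Z : ℤ) - s * D = τ * (A : ℤ) ^ x := by rw [← hD]; ring
      rw [this]; exact h1
    rw [mul_pow, sgn_even hs heven, one_mul] at h3
    have h4 := dvd_add h2 h3
    rw [sub_add_sub_cancel, hPh] at h4
    have h5 := h4.mul_left ((t : ℤ) ^ (q - 1))
    have h6 : (t : ℤ) ^ (q - 1) * (t * (β : ℤ) ^ y - (D : ℤ) ^ (q - 1)) =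
        (t : ℤ) ^ q * (β : ℤ) ^ y - (α : ℤ) ^ (y * (q - 1)) := by
      have e1 : (t : ℤ) * D = (α : ℤ) ^ y := by exact_mod_cast htD
      have e2 : (α : ℤ) ^ (y * (q - 1)) = (t : ℤ) ^ (q - 1) * (D : ℤ) ^ (q - 1) := by
        rw [pow_mul, ← e1, mul_pow]
      have e3 : (t : ℤ) ^ q = (t : ℤ) ^ (q - 1) * t := by
        rw [← pow_succ, Nat.sub_add_cancel hq.pos]
      rw [e2, e3]; ring
    rw [h6] at h5
    push_cast
    exact h5
  have hne1 : q * A ^ (x * (q - 1)) ≠ t * β ^ y := by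
    intro he
    have h1 : ℓ ∣ t * β ^ y := by
      rw [← he]
      exact ((hℓA.trans (dvd_pow_self A (Nat.mul_pos hx (by omega)).ne'))).mul_left q
    rcases hℓ.dvd_mul.mp h1 with h2 | h2
    · exact hℓt h2
    · exact hℓβ (hℓ.dvd_of_dvd_pow h2)
  have hne2 : t ^ q * β ^ y ≠ 1 * α ^ (y * (q - 1)) := by
    intro he
    have h1 : p ∣ t ^ q * β ^ y := by
      rw [he, one_mul]
      exact hpα.trans (dvd_pow_self α (Nat.mul_pos hy (by omega)).ne')
    rcases hp.dvd_mul.mp h1 with h2 | h2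
    · exact hpt (hp.dvd_of_dvd_pow h2)
    · exact hpβ (hp.dvd_of_dvd_pow h2)
  have hSu : ∀ n : ℕ, n ≠ 0 → (∀ r : ℕ, r.Prime → r ∣ n → r = q) → Su {q} n := fun n hn h1 =>
    ⟨hn, fun l hl hln => by rw [mem_singleton]; exact h1 l hl hln⟩
  have hSt : ∀ k : ℕ, Su {q} (t ^ k) := by
    intro k
    refine hSu _ (pow_ne_zero _ (by omega)) (fun r hr hrt => ?_)
    have h1 := hr.dvd_of_dvd_pow hrt
    rcases ht' with rfl | rfl
    · exact absurd (Nat.dvd_one.mp h1) hr.one_lt.ne'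
    · exact (Nat.prime_dvd_prime_iff_eq hr hq).mp h1
  have hmain : x + y ≤ C * S₀ ^ κ := by
    apply hboot S₀ (x + y) (by omega)
    intro S hS hXS
    have hBS' : B ≤ 2 ^ S := hBS.trans (Nat.pow_le_pow_right (by norm_num) hS)
    have hSS : S ≤ 2 ^ S := Nat.lt_two_pow_self.le
    have hlS : ∀ l ∈ ({q} : Finset ℕ), l ≤ 2 ^ S := by
      intro l hl
      rw [mem_singleton] at hl
      omega
    have hxq : 2 * (x * (q - 1)) ≤ 2 ^ S := by
      refine le_trans ?_ hXS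
      have h1 : x * (q - 1) ≤ (x + y) * q := Nat.mul_le_mul (by omega) (by omega)
      have h2 : 4 * q * (x + y) = 4 * ((x + y) * q) := by ring
      omega
    have hyq : 2 * (y * (q - 1)) ≤ 2 ^ S := by
      refine le_trans ?_ hXS
      have h1 : y * (q - 1) ≤ (x + y) * q := Nat.mul_le_mul (by omega) (by omega)
      have h2 : 4 * q * (x + y) = 4 * ((x + y) * q) := by ring
      omega
    have hy2 : 2 * y ≤ 2 ^ S := by
      refine le_trans ?_ hyq
      have : y * 1 ≤ y * (q - 1) := Nat.mul_le_mul_left _ (by omega)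
      omega
    have hfq : ∀ l, 2 * q.factorization l ≤ 2 ^ S := by
      intro l
      have := fact_le_one hq (Or.inr rfl) l
      omega
    have hft : ∀ l, 2 * t.factorization l ≤ 2 ^ S := by
      intro l
      have := fact_le_one hq ht' l
      omega
    have hftq : ∀ l, 2 * (t ^ q).factorization l ≤ 2 ^ S := by
      intro l
      have h1 := fact_le_one hq ht' l
      rw [Nat.factorization_pow]
      simp only [Finsupp.smul_apply, smul_eq_mul]
      have : q * t.factorization l ≤ q * 1 := Nat.mul_le_mul_left _ h1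
      omega
    have hf1 : ∀ l, 2 * (1 : ℕ).factorization l ≤ 2 ^ S := by
      intro l
      simp
    have b1 : y ≤ C₁ * S ^ κ := by
      refine hbak p S hp (hpS.trans hS) hlS q t A β (x * (q - 1)) y y
        (hSu q hq.ne_zero fun r hr hrq => (Nat.prime_dvd_prime_iff_eq hr hq).mp hrq)
        (by have := hSt 1; rwa [pow_one] at this) (by omega) hβ0
        (fun h1 => hpq ((Nat.prime_dvd_prime_iff_eq hp hq).mp h1)) hpt hpA hpβ (by omega)
        (hβB.trans hBS') hfq hft hxq hy2 hne1 ?_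
      rw [sq_sub_sq]
      refine Dvd.dvd.mul_left ?_ _
      have := dvd_neg.mpr hc1
      rwa [neg_sub] at this
    have b2 : x ≤ C₁ * S ^ κ := by
      refine hbak ℓ S hℓ ((Nat.le_of_dvd (by omega) hℓA).trans (by omega)) hlS (t ^ q) 1 β α y
        (y * (q - 1)) x (hSt q) (by have := hSt 0; rwa [pow_zero] at this) hβ0 hα0
        (fun h1 => hℓt (hℓ.dvd_of_dvd_pow h1)) (hℓ.one_lt.ne' ∘ Nat.dvd_one.mp) hℓβ hℓα
        (hβB.trans hBS') (hαB.trans hBS') hftq hf1 hy2 hyq hne2 ?_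
      rw [sq_sub_sq]
      refine Dvd.dvd.mul_left ?_ _
      rw [one_mul]
      exact hc2
    calc x + y ≤ C₁ * S ^ κ + C₁ * S ^ κ := Nat.add_le_add b2 b1
      _ = _ := by ring
  refine ⟨by omega, by omega, t, α, D, ht', htD, hD, ?_⟩
  -- size
  have h1 := size_bound hq hq2 hB hs hτ h hD
  have h2 : (α ^ q) ^ y ≤ ((2 * q) ^ q * B) ^ y := by
    calc (α ^ q) ^ y = (t * D) ^ q := by rw [htD, ← pow_mul, ← pow_mul, mul_comm]
      _ = t ^ q * D ^ q := mul_pow _ _ _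
      _ ≤ q ^ q * (2 ^ q * B ^ y) := Nat.mul_le_mul (Nat.pow_le_pow_left htq _) h1
      _ = (2 * q) ^ q * B ^ y := by rw [mul_pow]; ring
      _ ≤ ((2 * q) ^ q) ^ y * B ^ y := Nat.mul_le_mul_right _ (Nat.le_self_pow hy.ne' _)
      _ = _ := (mul_pow _ _ _).symm
  have h3 : α ^ q ≤ (2 * q) ^ q * B := (Nat.pow_le_pow_iff_left hy.ne').mp h2
  exact (Nat.pow_le_pow_right hα0 hq.two_le).trans h3

end Pool.Agent.TH888.F
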