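import Mathlib
import Pool.Agent.TH888.F.OddB

/-!
`B ^ y = ± (Z ^ 2 - A ^ (2x))`: factorisation and bounds.
-/

set_option autoImplicit false

namespace Pool.Agent.TH888.F

open Finset
open Pool.Agent.TH888.W2 (Su baker_su)

/-- the factorisation -/
theorem two_fact {Z A x B y : ℕ} {s : ℤ} (hA : 0 < A) (hx : 0 < x) (hs : s = 1 ∨ s = -1) (hy : 0 < y)
    (hAB : Nat.Coprime A B) (hB : 0 < B) (h : (B : ℤ) ^ y = s * ((Z : ℤ) ^ 2 - ((A : ℤ) ^ x) ^ 2)) :
    ∃ (c e u v : ℕ) (σ τ : ℤ), ((c = 2 ∧ e = 1) ∨ (c = 4 ∧ e = 4 ∧ 2 ∣ B)) ∧ (σ = 1 ∨ σ = -1) ∧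
      (τ = 1 ∨ τ = -1) ∧ u * v = B ∧ Nat.Coprime u v ∧
      σ * c * (A : ℤ) ^ x = (v : ℤ) ^ y + τ * e * (u : ℤ) ^ y := by
  have hss := sgn_mul hs
  obtain ⟨X, hX⟩ : ∃ X : ℕ, X = A ^ x := ⟨_, rfl⟩
  have hXc : (A : ℤ) ^ x = X := by rw [hX]; push_cast; rfl
  have hXpos : 0 < X := by rw [hX]; exact Nat.pow_pos hA
  have hXB : Nat.Coprime X B := by rw [hX]; exact Nat.Coprime.pow_left x hAB
  rw [hXc] at h ⊢
  have hpos : (0 : ℤ) < (B : ℤ) ^ y := by positivity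
  have hF : (0 : ℤ) < (Z : ℤ) + X := by positivity
  have hprod : (s * ((Z : ℤ) - X)) * ((Z : ℤ) + X) = (B : ℤ) ^ y := by rw [h]; ring
  have hDpos : 0 < s * ((Z : ℤ) - X) := by
    by_contra hcon
    push Not at hcon
    have := mul_nonpos_of_nonpos_of_nonneg hcon hF.le
    linarith
  obtain ⟨D, hD⟩ : ∃ D : ℕ, (D : ℤ) = s * ((Z : ℤ) - X) :=
    ⟨(s * ((Z : ℤ) - X)).toNat, Int.toNat_of_nonneg hDpos.le⟩
  obtain ⟨F, hFe⟩ : ∃ F : ℕ, F = Z + X := ⟨_, rfl⟩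
  have hFc : (F : ℤ) = (Z : ℤ) + X := by rw [hFe]; push_cast; rfl
  have hDF : D * F = B ^ y := by
    have : (D : ℤ) * F = (B : ℤ) ^ y := by rw [hD, hFc, hprod]
    exact_mod_cast this
  have hsD : s * (D : ℤ) = Z - X := by rw [hD, ← mul_assoc, hss, one_mul]
  have h2X : 2 * (X : ℤ) = F - s * D := by rw [hsD, hFc]; ring
  have hτ : -s = 1 ∨ -s = -1 := by rcases hs with rfl | rfl <;> simp
  -- common divisors
  have hgX : ∀ g : ℕ, g ∣ D → Nat.Coprime g X := by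
    intro g hg
    have h1 : g ∣ B ^ y := hDF ▸ hg.mul_right F
    exact (Nat.Coprime.coprime_dvd_right h1 (Nat.Coprime.pow_right y hXB)).symm
  have hg2 : Nat.gcd D F ∣ 2 := by
    have h1 : ((Nat.gcd D F : ℕ) : ℤ) ∣ 2 * X := by
      rw [h2X]
      exact dvd_sub (Int.natCast_dvd_natCast.mpr (Nat.gcd_dvd_right D F))
        ((Int.natCast_dvd_natCast.mpr (Nat.gcd_dvd_left D F)).mul_left s)
    have h2 : Nat.gcd D F ∣ 2 * X := by exact_mod_cast h1
    exact (hgX _ (Nat.gcd_dvd_left D F)).dvd_of_dvd_mul_right h2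
  rcases (Nat.dvd_prime Nat.prime_two).mp hg2 with h1 | h1
  · obtain ⟨α, β, hα, hβ, hαβ⟩ := pow_factors hy h1 hDF
    have hcαβ : Nat.Coprime α β := by
      have h2 : Nat.Coprime (α ^ y) (β ^ y) := by rw [← hα, ← hβ]; exact h1
      exact (Nat.coprime_pow_left_iff hy _ _).mp ((Nat.coprime_pow_right_iff hy _ _).mp h2)
    refine ⟨2, 1, α, β, 1, -s, Or.inl ⟨rfl, rfl⟩, Or.inl rfl, hτ, hαβ, hcαβ, ?_⟩
    have e1 : (D : ℤ) = (α : ℤ) ^ y := by rw [hα]; push_cast; rfl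
    have e2 : (F : ℤ) = (β : ℤ) ^ y := by rw [hβ]; push_cast; rfl
    rw [← e1, ← e2]
    push_cast
    linear_combination h2X
  · obtain ⟨D', hD'⟩ : 2 ∣ D := h1 ▸ Nat.gcd_dvd_left D F
    obtain ⟨F', hF'⟩ : 2 ∣ F := h1 ▸ Nat.gcd_dvd_right D F
    have h2B : 2 ∣ B := Nat.prime_two.dvd_of_dvd_pow (by rw [← hDF, hF']; exact ⟨D * F', by ring⟩ : 2 ∣ B ^ y)
    have hcF : Nat.Coprime D' F' := by
      have h2 : Nat.gcd D F = 2 * Nat.gcd D' F' := by rw [hD', hF', Nat.gcd_mul_left]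
      rw [h1] at h2
      have : Nat.gcd D' F' = 1 := by omega
      exact this
    have hXe : (X : ℤ) = F' - s * D' := by
      have : 2 * (X : ℤ) = 2 * (F' - s * D') := by
        rw [h2X, hD', hF']; push_cast; ring
      linarith
    have hXodd : ¬ 2 ∣ X := by
      intro h2
      have := Nat.dvd_gcd h2 h2B
      rw [hXB] at this
      omega
    have hpar : (2 ∣ D' ∧ ¬ 2 ∣ F') ∨ (2 ∣ F' ∧ ¬ 2 ∣ D') := by
      rcases hs with rfl | rfl
      · have h3 : X + D' = F' := by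
          have : (X : ℤ) + D' = F' := by rw [hXe]; ring
          exact_mod_cast this
        omega
      · have h3 : X = F' + D' := by
          have : (X : ℤ) = F' + D' := by rw [hXe]; ring
          exact_mod_cast this
        omega
    rcases hpar with ⟨p1, p2⟩ | ⟨p1, p2⟩
    · have hco : Nat.Coprime (4 * D') F' := by
        have h3 : Nat.Coprime 2 F' := (Nat.Prime.coprime_iff_not_dvd Nat.prime_two).mpr p2
        have h4 : Nat.Coprime 4 F' := by
          have := Nat.Coprime.pow_left 2 h3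
          norm_num at this
          exact this
        exact Nat.Coprime.mul_left h4 hcF
      have hpr : (4 * D') * F' = B ^ y := by rw [← hDF, hD', hF']; ring
      obtain ⟨v, u, hv, hu, huv⟩ := pow_factors hy hco hpr
      have hcuv : Nat.Coprime v u := by
        have h2 : Nat.Coprime (v ^ y) (u ^ y) := by rw [← hv, ← hu]; exact hco
        exact (Nat.coprime_pow_left_iff hy _ _).mp ((Nat.coprime_pow_right_iff hy _ _).mp h2)
      refine ⟨4, 4, u, v, -s, -s, Or.inr ⟨rfl, rfl, h2B⟩, hτ, hτ, by rw [mul_comm]; exact huv,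
        hcuv.symm, ?_⟩
      have e1 : 4 * (D' : ℤ) = (v : ℤ) ^ y := by exact_mod_cast hv
      have e2 : (F' : ℤ) = (u : ℤ) ^ y := by exact_mod_cast hu
      rw [← e1, ← e2, hXe]
      push_cast
      linear_combination (4 * (D' : ℤ)) * hss
    · have hco : Nat.Coprime D' (4 * F') := by
        have h3 : Nat.Coprime D' 2 := ((Nat.Prime.coprime_iff_not_dvd Nat.prime_two).mpr p2).symm
        have h4 : Nat.Coprime D' 4 := by
          have := Nat.Coprime.pow_right 2 h3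
          norm_num at this
          exact this
        exact Nat.Coprime.mul_right h4 hcF
      have hpr : D' * (4 * F') = B ^ y := by rw [← hDF, hD', hF']; ring
      obtain ⟨u, v, hu, hv, huv⟩ := pow_factors hy hco hpr
      have hcuv : Nat.Coprime u v := by
        have h2 : Nat.Coprime (u ^ y) (v ^ y) := by rw [← hv, ← hu]; exact hco
        exact (Nat.coprime_pow_left_iff hy _ _).mp ((Nat.coprime_pow_right_iff hy _ _).mp h2)
      refine ⟨4, 4, u, v, 1, -s, Or.inr ⟨rfl, rfl, h2B⟩, Or.inl rfl, hτ, huv, hcuv, ?_⟩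
      have e1 : (D' : ℤ) = (u : ℤ) ^ y := by exact_mod_cast hu
      have e2 : 4 * (F' : ℤ) = (v : ℤ) ^ y := by exact_mod_cast hv
      rw [← e1, ← e2, hXe]
      push_cast
      ring

theorem two_bound (A : ℕ) (hA : 2 ≤ A) : ∃ C κ : ℕ,
    ∀ (S₀ p B Z x y : ℕ) (s : ℤ), A + 10 ≤ S₀ → p.Prime → p ≠ 2 → p ∣ B →
      p ≤ S₀ → 0 < B → B ≤ 2 ^ S₀ → 0 < x → 0 < y → Nat.Coprime A B → (s = 1 ∨ s = -1) →
      (B : ℤ) ^ y = s * ((Z : ℤ) ^ 2 - ((A : ℤ) ^ x) ^ 2) →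
      x ≤ C * S₀ ^ κ ∧ y ≤ C * S₀ ^ κ ∧ ∃ (c e u v : ℕ) (σ τ : ℤ),
        ((c = 2 ∧ e = 1) ∨ (c = 4 ∧ e = 4)) ∧ (σ = 1 ∨ σ = -1) ∧
        (τ = 1 ∨ τ = -1) ∧ u * v = B ∧ σ * c * (A : ℤ) ^ x = (v : ℤ) ^ y + τ * e * (u : ℤ) ^ y := by
  obtain ⟨C₁, κ, hbak⟩ := baker_su {2}
  obtain ⟨C, hboot⟩ := boot (2 * C₁) κ 2
  obtain ⟨ℓ, hℓ, hℓA⟩ := Nat.exists_prime_and_dvd (show A ≠ 1 by omega)
  refine ⟨C, κ, ?_⟩
  intro S₀ p B Z x y s hS₀ hp hp2 hpB hpS hB hBS hx hy hAB hs h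
  obtain ⟨c, e, u, v, σ, τ, hce, hσ, hτ, huv, hcuv, heq⟩ := two_fact (by omega) hx hs hy hAB hB h
  have hpc : ∀ {r : ℕ}, r.Prime → r ∣ A → ¬ r ∣ B := by
    intro r hr h1 h2
    have h3 := Nat.dvd_gcd h1 h2
    rw [hAB] at h3
    exact hr.one_lt.ne' (Nat.dvd_one.mp h3)
  have hu0 : 0 < u := Nat.pos_of_ne_zero (by rintro rfl; rw [zero_mul] at huv; omega)
  have hv0 : 0 < v := Nat.pos_of_ne_zero (by rintro rfl; rw [mul_zero] at huv; omega)
  have huB : u ≤ B := by rw [← huv]; exact Nat.le_mul_of_pos_right _ hv0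
  have hvB : v ≤ B := by rw [← huv]; exact Nat.le_mul_of_pos_left _ hu0
  have hℓB : ¬ ℓ ∣ B := hpc hℓ hℓA
  have hℓu : ¬ ℓ ∣ u := fun h1 => hℓB (huv ▸ h1.mul_right v)
  have hℓv : ¬ ℓ ∣ v := fun h1 => hℓB (huv ▸ h1.mul_left u)
  have hpA : ¬ p ∣ A := fun h1 => hpc hp h1 hpB
  have hpc2 : ¬ p ∣ 2 := fun h1 => hp2 ((Nat.prime_dvd_prime_iff_eq hp Nat.prime_two).mp h1)
  have hp4 : ¬ p ∣ 4 := fun h1 => hpc2 (hp.dvd_of_dvd_pow (show p ∣ 2 ^ 2 by norm_num; exact h1))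
  have hpcc : ¬ p ∣ c := by rcases hce with ⟨rfl, -⟩ | ⟨rfl, -⟩ <;> assumption
  have hpe : ¬ p ∣ e := by
    rcases hce with ⟨-, rfl⟩ | ⟨-, rfl, -⟩
    · exact hp.one_lt.ne' ∘ Nat.dvd_one.mp
    · exact hp4
  have hℓe : ¬ ℓ ∣ e := by
    rcases hce with ⟨-, rfl⟩ | ⟨-, rfl, h2B⟩
    · exact hℓ.one_lt.ne' ∘ Nat.dvd_one.mp
    · intro h1
      have h2 : ℓ ∣ 2 := hℓ.dvd_of_dvd_pow (show ℓ ∣ 2 ^ 2 by norm_num; exact h1)
      have h3 := (Nat.prime_dvd_prime_iff_eq hℓ Nat.prime_two).mp h2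
      exact hℓB (h3 ▸ h2B)
  have hx0 : ℓ ∣ A ^ x := hℓA.trans (dvd_pow_self A hx.ne')
  have hSu2 : ∀ k : ℕ, Su {2} (2 ^ k) := fun k => ⟨pow_ne_zero _ (by norm_num), fun l hl hln => by
    rw [mem_singleton]
    exact (Nat.prime_dvd_prime_iff_eq hl Nat.prime_two).mp (hl.dvd_of_dvd_pow hln)⟩
  have hSc : Su {2} c := by
    rcases hce with ⟨rfl, -⟩ | ⟨rfl, -⟩
    · have := hSu2 1; norm_num at this; exact this
    · have := hSu2 2; norm_num at this; exact this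
  have hSe : Su {2} e := by
    rcases hce with ⟨-, rfl⟩ | ⟨-, rfl, -⟩
    · have := hSu2 0; norm_num at this; exact this
    · have := hSu2 2; norm_num at this; exact this
  have hS1 : Su {2} 1 := by have := hSu2 0; norm_num at this; exact this
  have hc4 : c ≤ 4 ∧ c ≠ 0 := by rcases hce with ⟨rfl, -⟩ | ⟨rfl, -⟩ <;> omega
  have he4 : e ≤ 4 ∧ e ≠ 0 := by rcases hce with ⟨-, rfl⟩ | ⟨-, rfl, -⟩ <;> omega
  have hmain : x + y ≤ C * S₀ ^ κ := by
    apply hboot S₀ (x + y) (by omega)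
    intro S hS hXS
    have hBS' : B ≤ 2 ^ S := hBS.trans (Nat.pow_le_pow_right (by norm_num) hS)
    have hSS : S ≤ 2 ^ S := Nat.lt_two_pow_self.le
    have hlS : ∀ l ∈ ({2} : Finset ℕ), l ≤ 2 ^ S := by
      intro l hl
      rw [mem_singleton] at hl
      omega
    have hfac : ∀ n : ℕ, n ≤ 4 → n ≠ 0 → ∀ l, 2 * n.factorization l ≤ 2 ^ S := by
      intro n hn hn0 l
      have := Nat.factorization_lt l hn0
      omega
    have hfc := hfac c hc4.1 hc4.2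
    have hfe := hfac e he4.1 he4.2
    have hf1 := hfac 1 (by norm_num) (by norm_num)
    have b1 : y ≤ C₁ * S ^ κ := by
      rw [← huv] at hpB
      rcases hp.dvd_mul.mp hpB with hpu | hpv
      · -- `p ∣ u`
        have hpv : ¬ p ∣ v := fun h1 => by
          have h3 := Nat.dvd_gcd hpu h1
          rw [hcuv] at h3
          exact hp.one_lt.ne' (Nat.dvd_one.mp h3)
        refine hbak p S hp (hpS.trans hS) hlS c 1 A v x y y hSc hS1 (by omega) hv0 hpcc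
          (hp.one_lt.ne' ∘ Nat.dvd_one.mp) hpA hpv (by omega) (hvB.trans hBS') hfc hf1 (by omega)
          (by omega) ?_ ?_
        · intro he
          rw [one_mul] at he
          exact hℓv (hℓ.dvd_of_dvd_pow (he ▸ hx0.mul_left c))
        · have h1 : (p : ℤ) ^ y ∣ τ * e * (u : ℤ) ^ y :=
            Dvd.dvd.mul_left (pow_dvd_pow_of_dvd (by exact_mod_cast hpu) y) _
          have h2 : ((c * A ^ x : ℕ) : ℤ) ^ 2 - ((1 * v ^ y : ℕ) : ℤ) ^ 2 =
              (σ * c * (A : ℤ) ^ x + v ^ y) * (τ * e * (u : ℤ) ^ y) := by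
            have h3 : τ * e * (u : ℤ) ^ y = σ * c * (A : ℤ) ^ x - v ^ y := by rw [heq]; ring
            rw [h3]
            push_cast
            linear_combination (-(c * (A : ℤ) ^ x) ^ 2) * sgn_mul hσ
          rw [h2]
          exact h1.mul_left _
      · have hpu : ¬ p ∣ u := fun h1 => by
          have h3 := Nat.dvd_gcd h1 hpv
          rw [hcuv] at h3
          exact hp.one_lt.ne' (Nat.dvd_one.mp h3)
        refine hbak p S hp (hpS.trans hS) hlS c e A u x y y hSc hSe (by omega) hu0 hpcc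
          hpe hpA hpu (by omega) (huB.trans hBS') hfc hfe (by omega)
          (by omega) ?_ ?_
        · intro he
          have h1 : ℓ ∣ e * u ^ y := he ▸ hx0.mul_left c
          rcases hℓ.dvd_mul.mp h1 with h2 | h2
          · exact hℓe h2
          · exact hℓu (hℓ.dvd_of_dvd_pow h2)
        · have h1 : (p : ℤ) ^ y ∣ (v : ℤ) ^ y := pow_dvd_pow_of_dvd (by exact_mod_cast hpv) y
          have h2 : ((c * A ^ x : ℕ) : ℤ) ^ 2 - ((e * u ^ y : ℕ) : ℤ) ^ 2 =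
              (σ * c * (A : ℤ) ^ x + τ * e * (u : ℤ) ^ y) * ((v : ℤ) ^ y) := by
            have h3 : (v : ℤ) ^ y = σ * c * (A : ℤ) ^ x - τ * e * (u : ℤ) ^ y := by rw [heq]; ring
            rw [h3]
            push_cast
            linear_combination (-(c * (A : ℤ) ^ x) ^ 2) * sgn_mul hσ +
              ((e * (u : ℤ) ^ y) ^ 2) * sgn_mul hτ
          rw [h2]
          exact h1.mul_left _
    have b2 : x ≤ C₁ * S ^ κ := by
      refine hbak ℓ S hℓ ((Nat.le_of_dvd (by omega) hℓA).trans (by omega)) hlS 1 e v u y y x hS1 hSe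
        hv0 hu0 (hℓ.one_lt.ne' ∘ Nat.dvd_one.mp) hℓe hℓv hℓu (hvB.trans hBS') (huB.trans hBS') hf1
        hfe (by omega) (by omega) ?_ ?_
      · intro he
        rw [one_mul] at he
        rw [← huv] at hpB
        rcases hp.dvd_mul.mp hpB with hpu | hpv
        · have h1 : p ∣ v ^ y := by
            rw [he]; exact (hpu.trans (dvd_pow_self u hy.ne')).mul_left e
          have h3 := Nat.dvd_gcd hpu (hp.dvd_of_dvd_pow h1)
          rw [hcuv] at h3
          exact hp.one_lt.ne' (Nat.dvd_one.mp h3)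
        · have h1 : p ∣ e * u ^ y := by
            rw [← he]; exact hpv.trans (dvd_pow_self v hy.ne')
          rcases hp.dvd_mul.mp h1 with h2 | h2
          · exact hpe h2
          · have h3 := Nat.dvd_gcd (hp.dvd_of_dvd_pow h2) hpv
            rw [hcuv] at h3
            exact hp.one_lt.ne' (Nat.dvd_one.mp h3)
      · have h1 : (ℓ : ℤ) ^ x ∣ (v : ℤ) ^ y + τ * e * (u : ℤ) ^ y := by
          rw [← heq]
          exact Dvd.dvd.mul_left (pow_dvd_pow_of_dvd (by exact_mod_cast hℓA) x) _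
        have h2 : ((1 * v ^ y : ℕ) : ℤ) ^ 2 - ((e * u ^ y : ℕ) : ℤ) ^ 2 =
            ((v : ℤ) ^ y + τ * e * (u : ℤ) ^ y) * ((v : ℤ) ^ y - τ * e * (u : ℤ) ^ y) := by
          push_cast
          linear_combination ((e * (u : ℤ) ^ y) ^ 2) * sgn_mul hτ
        rw [h2]
        exact h1.mul_right _
    calc x + y ≤ C₁ * S ^ κ + C₁ * S ^ κ := Nat.add_le_add b2 b1
      _ = _ := by ring
  refine ⟨by omega, by omega, c, e, u, v, σ, τ, ?_, hσ, hτ, huv, heq⟩
  rcases hce with h1 | ⟨h1, h2, -⟩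
  · exact Or.inl h1
  · exact Or.inr ⟨h1, h2⟩

end Pool.Agent.TH888.F
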