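import Mathlib
import Pool.Agent.TH888.F.Two

/-!
Counting the `B` with `B ^ y = ± (Z ^ q - (± A ^ x) ^ q)`.
-/

set_option autoImplicit false

namespace Pool.Agent.TH888.F

open Finset

/-- `B ^ y = ± (Z ^ q - (± A ^ x) ^ q)` -/
def Sol (q A B : ℕ) : Prop := ∃ (x y Z : ℕ) (s τ : ℤ), 0 < x ∧ 0 < y ∧ (s = 1 ∨ s = -1) ∧
  (τ = 1 ∨ τ = -1) ∧ (B : ℤ) ^ y = s * ((Z : ℤ) ^ q - (τ * (A : ℤ) ^ x) ^ q)

theorem pow_inj {B B' y : ℕ} (hy : 0 < y) (h : (B : ℤ) ^ y = (B' : ℤ) ^ y) : B = B' := by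
  have h1 : B ^ y = B' ^ y := by exact_mod_cast h
  exact Nat.pow_left_injective (n := y) hy.ne' h1

theorem mem_sgn {s : ℤ} (hs : s = 1 ∨ s = -1) : s ∈ ({1, -1} : Finset ℤ) := by
  rcases hs with rfl | rfl <;> simp

theorem sqrt_bound (M N : ℕ) (hN : 1 ≤ N) : ((Nat.sqrt (M * N) + 1 : ℕ) : ℝ) ≤ (M + 1) * Real.sqrt N := by
  have h1 : ((Nat.sqrt (M * N) : ℕ) : ℝ) ≤ Real.sqrt ((M * N : ℕ) : ℝ) := Real.nat_sqrt_le_real_sqrt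
  have h2 : Real.sqrt ((M * N : ℕ) : ℝ) ≤ M * Real.sqrt N := by
    push_cast
    rw [Real.sqrt_mul (Nat.cast_nonneg _)]
    refine mul_le_mul_of_nonneg_right ?_ (Real.sqrt_nonneg _)
    rcases Nat.eq_zero_or_pos M with rfl | hM
    · simp
    · rw [Real.sqrt_le_left (Nat.cast_nonneg _)]
      have : (1 : ℝ) ≤ M := by exact_mod_cast hM
      nlinarith
  have h3 : (1 : ℝ) ≤ Real.sqrt N := by
    rw [Real.one_le_sqrt]; exact_mod_cast hN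
  push_cast
  linarith

theorem count_odd (q A : ℕ) (hq : q.Prime) (hq2 : q ≠ 2) (hA : 2 ≤ A) : ∃ C κ : ℕ,
    ∀ S₀ N : ℕ, A + 4 * q ≤ S₀ → 1 ≤ N → N ≤ 2 ^ S₀ →
      {B : ℕ | 0 < B ∧ B ≤ N ∧ Nat.Coprime A B ∧
        (∃ p, p.Prime ∧ p ≠ q ∧ ¬ q ∣ p - 1 ∧ p ∣ B ∧ p ≤ S₀) ∧ Sol q A B}.Finite ∧
      (({B : ℕ | 0 < B ∧ B ≤ N ∧ Nat.Coprime A B ∧
        (∃ p, p.Prime ∧ p ≠ q ∧ ¬ q ∣ p - 1 ∧ p ∣ B ∧ p ≤ S₀) ∧ Sol q A B}.ncard : ℕ) : ℝ) ≤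
        C * (S₀ : ℝ) ^ κ * Real.sqrt N := by
  obtain ⟨C, κ, hC⟩ := odd_bound q A hq hq2 hA
  refine ⟨8 * (C + 1) ^ 2 * ((2 * q) ^ q + 1), 2 * κ, ?_⟩
  intro S₀ N hS₀ hN hNS
  obtain ⟨X, hX⟩ : ∃ X, X = C * S₀ ^ κ := ⟨_, rfl⟩
  obtain ⟨Rr, hR⟩ : ∃ Rr, Rr = Nat.sqrt ((2 * q) ^ q * N) := ⟨_, rfl⟩
  have hcount := count_rel
    {B : ℕ | 0 < B ∧ B ≤ N ∧ Nat.Coprime A B ∧
        (∃ p, p.Prime ∧ p ≠ q ∧ ¬ q ∣ p - 1 ∧ p ∣ B ∧ p ≤ S₀) ∧ Sol q A B}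
    (({1, q} : Finset ℕ) ×ˢ ({1, -1} : Finset ℤ) ×ˢ ({1, -1} : Finset ℤ) ×ˢ range (X + 1) ×ˢ
      range (X + 1) ×ˢ range (Rr + 1))
    (fun i B => 0 < i.2.2.2.2.1 ∧ ∃ D Z : ℕ, i.1 * D = i.2.2.2.2.2 ^ i.2.2.2.2.1 ∧
      (Z : ℤ) - i.2.2.1 * (A : ℤ) ^ i.2.2.2.1 = i.2.1 * D ∧
      (B : ℤ) ^ i.2.2.2.2.1 = i.2.1 * ((Z : ℤ) ^ q - (i.2.2.1 * (A : ℤ) ^ i.2.2.2.1) ^ q))
    (by
      rintro B ⟨hB0, hBN, hAB, ⟨p, hp, hpq, hp1, hpB, hpS⟩, x, y, Z, s, τ, hx, hy, hs, hτ, heq⟩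
      obtain ⟨hxX, hyX, t, α, D, ht, htD, hD, hα⟩ := hC S₀ p B Z x y s τ hS₀ hp hpq hp1 hpB hpS hB0
        (hBN.trans hNS) hx hy hAB hs hτ heq
      refine ⟨(t, s, τ, x, y, α), ?_, hy, D, Z, htD, hD, heq⟩
      rw [mem_product, mem_product, mem_product, mem_product, mem_product]
      refine ⟨?_, mem_sgn hs, mem_sgn hτ, ?_, ?_, ?_⟩
      · rcases ht with rfl | rfl <;> simp
      · rw [mem_range, hX]; exact Nat.lt_succ_of_le hxX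
      · rw [mem_range, hX]; exact Nat.lt_succ_of_le hyX
      · rw [mem_range, hR]
        refine Nat.lt_succ_of_le (Nat.le_sqrt'.mpr ?_)
        exact hα.trans (Nat.mul_le_mul_left _ hBN))
    (by
      rintro ⟨t, s, τ, x, y, α⟩ hi B B' ⟨hy, D, Z, h1, h2, h3⟩ ⟨-, D', Z', h1', h2', h3'⟩
      simp only at h1 h2 h3 h1' h2' h3' hy
      rw [mem_product, mem_insert, mem_singleton] at hi
      have ht : 0 < t := by
        have := hi.1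
        simp only at this
        rcases this with rfl | rfl
        · exact one_pos
        · exact hq.pos
      have hDD : D = D' := Nat.eq_of_mul_eq_mul_left ht (h1.trans h1'.symm)
      have hZZ : (Z : ℤ) = Z' := by
        rw [← hDD] at h2'
        linarith
      rw [hZZ] at h3
      exact pow_inj hy (h3.trans h3'.symm))
  refine ⟨hcount.1, ?_⟩
  have h1 : (({B : ℕ | 0 < B ∧ B ≤ N ∧ Nat.Coprime A B ∧
        (∃ p, p.Prime ∧ p ≠ q ∧ ¬ q ∣ p - 1 ∧ p ∣ B ∧ p ≤ S₀) ∧ Sol q A B}.ncard : ℕ) : ℝ) ≤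
      ((2 * (2 * (2 * ((X + 1) * ((X + 1) * (Rr + 1))))) : ℕ) : ℝ) := by
    refine (Nat.cast_le.mpr hcount.2).trans (Nat.cast_le.mpr ?_)
    rw [card_product, card_product, card_product, card_product, card_product, card_range, card_range]
    exact Nat.mul_le_mul card_le_two (Nat.mul_le_mul card_le_two (Nat.mul_le_mul card_le_two le_rfl))
  have hS1 : (1 : ℝ) ≤ (S₀ : ℝ) ^ κ := one_le_pow₀ (by
    have : 1 ≤ S₀ := by omega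
    exact_mod_cast this)
  have h2 : ((X + 1 : ℕ) : ℝ) ≤ (C + 1) * (S₀ : ℝ) ^ κ := by
    rw [hX]; push_cast; linarith
  have h3 := sqrt_bound ((2 * q) ^ q) N hN
  rw [← hR] at h3
  calc _ ≤ _ := h1
    _ = 8 * (((X + 1 : ℕ) : ℝ) * ((X + 1 : ℕ) : ℝ)) * ((Rr + 1 : ℕ) : ℝ) := by push_cast; ring
    _ ≤ 8 * (((C + 1) * (S₀ : ℝ) ^ κ) * ((C + 1) * (S₀ : ℝ) ^ κ)) *
        (((((2 * q) ^ q : ℕ) : ℝ) + 1) * Real.sqrt N) := by
      refine mul_le_mul (mul_le_mul_of_nonneg_left (mul_le_mul h2 h2 (Nat.cast_nonneg _)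
        (by positivity)) (by norm_num)) h3 (Nat.cast_nonneg _) (by positivity)
    _ = _ := by push_cast; ring

theorem count_two (A : ℕ) (hA : 2 ≤ A) : ∃ C κ : ℕ,
    ∀ S₀ N : ℕ, A + 10 ≤ S₀ → 1 ≤ N → N ≤ 2 ^ S₀ →
      {B : ℕ | 0 < B ∧ B ≤ N ∧ Nat.Coprime A B ∧
        (∃ p, p.Prime ∧ p ≠ 2 ∧ p ∣ B ∧ p ≤ S₀) ∧ Sol 2 A B}.Finite ∧
      (({B : ℕ | 0 < B ∧ B ≤ N ∧ Nat.Coprime A B ∧
        (∃ p, p.Prime ∧ p ≠ 2 ∧ p ∣ B ∧ p ≤ S₀) ∧ Sol 2 A B}.ncard : ℕ) : ℝ) ≤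
        C * (S₀ : ℝ) ^ κ * Real.sqrt N := by
  obtain ⟨C, κ, hC⟩ := two_bound A hA
  refine ⟨32 * (C + 1) ^ 2 * (1 + 1), 2 * κ, ?_⟩
  intro S₀ N hS₀ hN hNS
  obtain ⟨X, hX⟩ : ∃ X, X = C * S₀ ^ κ := ⟨_, rfl⟩
  obtain ⟨Rr, hR⟩ : ∃ Rr, Rr = Nat.sqrt (1 * N) := ⟨_, rfl⟩
  have hcount := count_rel
    {B : ℕ | 0 < B ∧ B ≤ N ∧ Nat.Coprime A B ∧
        (∃ p, p.Prime ∧ p ≠ 2 ∧ p ∣ B ∧ p ≤ S₀) ∧ Sol 2 A B}
    (({2, 4} : Finset ℕ) ×ˢ ({1, 4} : Finset ℕ) ×ˢ ({1, -1} : Finset ℤ) ×ˢ ({1, -1} : Finset ℤ) ×ˢ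
      (univ : Finset Bool) ×ˢ range (X + 1) ×ˢ range (X + 1) ×ˢ range (Rr + 1))
    (fun i B => 0 < i.2.2.2.2.2.2.1 ∧ ∃ u v : ℕ, u * v = B ∧
      i.2.2.1 * i.1 * (A : ℤ) ^ i.2.2.2.2.2.1 = (v : ℤ) ^ i.2.2.2.2.2.2.1 +
        i.2.2.2.1 * i.2.1 * (u : ℤ) ^ i.2.2.2.2.2.2.1 ∧
      (i.2.2.2.2.1 = true → u = i.2.2.2.2.2.2.2) ∧ (i.2.2.2.2.1 = false → v = i.2.2.2.2.2.2.2))
    (by
      rintro B ⟨hB0, hBN, hAB, ⟨p, hp, hp2, hpB, hpS⟩, x, y, Z, s, τ, hx, hy, hs, hτ, heq⟩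
      have heq' : (B : ℤ) ^ y = s * ((Z : ℤ) ^ 2 - ((A : ℤ) ^ x) ^ 2) := by
        rw [heq]
        linear_combination (-s * ((A : ℤ) ^ x) ^ 2) * sgn_mul hτ
      obtain ⟨hxX, hyX, c, e, u, v, σ, τ', hce, hσ, hτ', huv, h5⟩ := hC S₀ p B Z x y s hS₀ hp hp2 hpB
        hpS hB0 (hBN.trans hNS) hx hy hAB hs heq'
      have hc : c ∈ ({2, 4} : Finset ℕ) := by rcases hce with ⟨rfl, -⟩ | ⟨rfl, -⟩ <;> simp
      have he : e ∈ ({1, 4} : Finset ℕ) := by rcases hce with ⟨-, rfl⟩ | ⟨-, rfl⟩ <;> simp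
      have hmin : u ≤ Rr ∨ v ≤ Rr := by
        by_contra hcon
        push Not at hcon
        have h6 : (Rr + 1) * (Rr + 1) ≤ u * v := Nat.mul_le_mul hcon.1 hcon.2
        have h7 : N < (Rr + 1) * (Rr + 1) := by
          rw [hR, one_mul]; exact Nat.lt_succ_sqrt N
        omega
      have hxm : x ∈ range (X + 1) := by rw [mem_range, hX]; exact Nat.lt_succ_of_le hxX
      have hym : y ∈ range (X + 1) := by rw [mem_range, hX]; exact Nat.lt_succ_of_le hyX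
      rcases hmin with h6 | h6
      · refine ⟨(c, e, σ, τ', true, x, y, u), ?_, hy, u, v, huv, h5, fun _ => rfl,
          fun h => by simp at h⟩
        simp only [mem_product]
        exact ⟨hc, he, mem_sgn hσ, mem_sgn hτ', mem_univ _, hxm, hym,
          mem_range.mpr (Nat.lt_succ_of_le h6)⟩
      · refine ⟨(c, e, σ, τ', false, x, y, v), ?_, hy, u, v, huv, h5, fun h => by simp at h,
          fun _ => rfl⟩
        simp only [mem_product]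
        exact ⟨hc, he, mem_sgn hσ, mem_sgn hτ', mem_univ _, hxm, hym,
          mem_range.mpr (Nat.lt_succ_of_le h6)⟩)
    (by
      rintro ⟨c, e, σ, τ, side, x, y, w⟩ hi B B' ⟨hy, u, v, h1, h2, h3, h4⟩ ⟨-, u', v', h1', h2', h3', h4'⟩
      simp only at h1 h2 h3 h4 h1' h2' h3' h4' hy
      simp only [mem_product, mem_insert, mem_singleton] at hi
      obtain ⟨-, he, -, hτ, -⟩ := hi
      have he0 : (e : ℤ) ≠ 0 := by
        rcases he with rfl | rfl <;> norm_num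
      have hττ := sgn_mul hτ
      rcases Bool.eq_false_or_eq_true side with hside | hside
      · have hu := h3 hside
        have hu' := h3' hside
        rw [hu] at h2
        rw [hu'] at h2'
        have h5 : (v : ℤ) ^ y = (v' : ℤ) ^ y := by linarith
        have h6 := pow_inj hy h5
        rw [← h1, ← h1', hu, hu', h6]
      · have hv := h4 hside
        have hv' := h4' hside
        rw [hv] at h2
        rw [hv'] at h2'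
        have h5 : τ * e * (u : ℤ) ^ y = τ * e * (u' : ℤ) ^ y := by linarith
        have h7 : τ * e ≠ 0 := mul_ne_zero (by rcases hτ with rfl | rfl <;> norm_num) he0
        have h8 := mul_left_cancel₀ h7 h5
        have h6 := pow_inj hy h8
        rw [← h1, ← h1', hv, hv', h6])
  refine ⟨hcount.1, ?_⟩
  have h1 : (({B : ℕ | 0 < B ∧ B ≤ N ∧ Nat.Coprime A B ∧
        (∃ p, p.Prime ∧ p ≠ 2 ∧ p ∣ B ∧ p ≤ S₀) ∧ Sol 2 A B}.ncard : ℕ) : ℝ) ≤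
      ((2 * (2 * (2 * (2 * (2 * ((X + 1) * ((X + 1) * (Rr + 1))))))) : ℕ) : ℝ) := by
    refine (Nat.cast_le.mpr hcount.2).trans (Nat.cast_le.mpr ?_)
    simp only [card_product, card_range]
    refine Nat.mul_le_mul card_le_two (Nat.mul_le_mul card_le_two (Nat.mul_le_mul card_le_two
      (Nat.mul_le_mul card_le_two (Nat.mul_le_mul ?_ le_rfl))))
    simp
  have hS1 : (1 : ℝ) ≤ (S₀ : ℝ) ^ κ := one_le_pow₀ (by
    have : 1 ≤ S₀ := by omega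
    exact_mod_cast this)
  have h2 : ((X + 1 : ℕ) : ℝ) ≤ (C + 1) * (S₀ : ℝ) ^ κ := by
    rw [hX]; push_cast; linarith
  have h3 := sqrt_bound 1 N hN
  rw [← hR] at h3
  calc _ ≤ _ := h1
    _ = 32 * (((X + 1 : ℕ) : ℝ) * ((X + 1 : ℕ) : ℝ)) * ((Rr + 1 : ℕ) : ℝ) := by push_cast; ring
    _ ≤ 32 * (((C + 1) * (S₀ : ℝ) ^ κ) * ((C + 1) * (S₀ : ℝ) ^ κ)) *
        (((1 : ℕ) + 1) * Real.sqrt N) := by
      refine mul_le_mul (mul_le_mul_of_nonneg_left (mul_le_mul h2 h2 (Nat.cast_nonneg _)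
        (by positivity)) (by norm_num)) h3 (Nat.cast_nonneg _) (by positivity)
    _ = _ := by push_cast; ring

end Pool.Agent.TH888.F
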