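import Mathlib
import Pool.Agent.TH888.F.Cnt
import Pool.Agent.TH888.B1.FreeMain
import Pool.Agent.TH888.B1.Core
import Pool.Agent.H755R5.Kum.Final
import Pool.Agent.H755R5.Kum.Final2

/-!
Reduction of `A ^ x ± B ^ y = ± C ^ z`, `q ∣ z`, to `B ^ y = ± (Z ^ q - (± A ^ x') ^ q)`.
-/

set_option autoImplicit false

namespace Pool.Agent.TH888.F

open Finset
open Pool.Agent.TH888.B1 (class_fin polylog_rpow)

/-- the three kinds of equations -/
def Eqn (A B C x y z : ℕ) : Prop :=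
  A ^ x + B ^ y = C ^ z ∨ A ^ x + C ^ z = B ^ y ∨ B ^ y + C ^ z = A ^ x

/-- a prime factor `r` of `B` modulo which `A` is not a `q`-th power forces `q ∣ x` -/
theorem force {q A B C x y z r : ℕ} (hq : q.Prime) (hr : r.Prime) (hrB : r ∣ B)
    (hAB : Nat.Coprime A B) (hι : ∃ ι : ZMod r, ι ^ q = -1) (hn : ¬ ∃ t : ZMod r, t ^ q = (A : ZMod r))
    (hz : q ∣ z) (hy : 0 < y) (h : Eqn A B C x y z) : q ∣ x := by
  have : Fact r.Prime := ⟨hr⟩
  by_contra hqx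
  apply hn
  obtain ⟨ι, hι⟩ := hι
  obtain ⟨z', rfl⟩ := hz
  have hB0 : ((B : ℕ) : ZMod r) = 0 := (ZMod.natCast_eq_zero_iff B r).mpr hrB
  have hA0 : ((A : ℕ) : ZMod r) ≠ 0 := by
    intro h0
    have h1 := (ZMod.natCast_eq_zero_iff A r).mp h0
    have h2 := Nat.dvd_gcd h1 hrB
    rw [hAB] at h2
    exact hr.one_lt.ne' (Nat.dvd_one.mp h2)
  -- `A ^ x` is a `q`-th power
  obtain ⟨w, hw⟩ : ∃ w : ZMod r, (A : ZMod r) ^ x = w ^ q := by
    rcases h with h | h | h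
    · refine ⟨(C : ZMod r) ^ z', ?_⟩
      have h1 := congrArg (fun n : ℕ => (n : ZMod r)) h
      push_cast at h1
      rw [hB0, zero_pow hy.ne', add_zero] at h1
      rw [h1, ← pow_mul, mul_comm]
    · refine ⟨ι * (C : ZMod r) ^ z', ?_⟩
      have h1 := congrArg (fun n : ℕ => (n : ZMod r)) h
      push_cast at h1
      rw [hB0, zero_pow hy.ne'] at h1
      rw [mul_pow, hι, ← pow_mul, mul_comm z' q]
      linear_combination h1
    · refine ⟨(C : ZMod r) ^ z', ?_⟩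
      have h1 := congrArg (fun n : ℕ => (n : ZMod r)) h
      push_cast at h1
      rw [hB0, zero_pow hy.ne', zero_add] at h1
      rw [← h1, ← pow_mul, mul_comm]
  -- Bezout
  have hco : Nat.Coprime x q := ((Nat.Prime.coprime_iff_not_dvd hq).mpr hqx).symm
  obtain ⟨u, hu⟩ := Nat.exists_mul_mod_eq_one_of_coprime hco hq.one_lt
  obtain ⟨k, hk⟩ : ∃ k, x * u = q * k + 1 := ⟨x * u / q, by
    have := Nat.div_add_mod (x * u) q
    omega⟩
  refine ⟨w ^ u / (A : ZMod r) ^ k, ?_⟩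
  rw [div_pow, ← pow_mul, ← pow_mul, mul_comm u q, pow_mul, ← hw, ← pow_mul, hk, pow_succ,
    mul_comm k q]
  field_simp

/-- reduction to `Sol` -/
theorem to_sol {q A B C x y z : ℕ} (hq : q.Prime) (hx : 0 < x) (hy : 0 < y)
    (hAB : Nat.Coprime A B) (hqz : q ∣ z) (hqx : q ∣ x)
    (h2 : q = 2 → ∃ p, p.Prime ∧ p % 4 = 3 ∧ p ∣ B) (h : Eqn A B C x y z) : Sol q A B := by
  obtain ⟨z', rfl⟩ := hqz
  obtain ⟨x', rfl⟩ := hqx
  have hx' : 0 < x' := Nat.pos_of_ne_zero (by rintro rfl; simp at hx)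
  have e1 : A ^ (q * x') = (A ^ x') ^ q := by rw [← pow_mul, mul_comm]
  have e2 : C ^ (q * z') = (C ^ z') ^ q := by rw [← pow_mul, mul_comm]
  unfold Eqn at h
  rw [e1, e2] at h
  rcases h with h | h | h
  · refine ⟨x', y, C ^ z', 1, 1, hx', hy, Or.inl rfl, Or.inl rfl, ?_⟩
    have h1 := congrArg (fun n : ℕ => (n : ℤ)) h
    push_cast at h1 ⊢
    rw [one_mul, one_mul]
    linarith
  · rcases eq_or_ne q 2 with rfl | hq2
    · exfalso
      obtain ⟨p, hp, hp4, hpB⟩ := h2 rfl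
      have : Fact p.Prime := ⟨hp⟩
      have hA0 : ((A : ℕ) : ZMod p) ≠ 0 := by
        intro h0
        have h1 := (ZMod.natCast_eq_zero_iff A p).mp h0
        have h2 := Nat.dvd_gcd h1 hpB
        rw [hAB] at h2
        exact hp.one_lt.ne' (Nat.dvd_one.mp h2)
      have h1 := congrArg (fun n : ℕ => (n : ZMod p)) h
      push_cast at h1
      rw [(ZMod.natCast_eq_zero_iff B p).mpr hpB, zero_pow hy.ne'] at h1
      have h3 : IsSquare (-1 : ZMod p) := by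
        refine ⟨(C : ZMod p) ^ z' / (A : ZMod p) ^ x', ?_⟩
        have h4 : (A : ZMod p) ^ x' ≠ 0 := pow_ne_zero _ hA0
        field_simp
        linear_combination -h1
      exact (ZMod.exists_sq_eq_neg_one_iff.mp h3) hp4
    · have hodd : Odd q := hq.odd_of_ne_two hq2
      refine ⟨x', y, C ^ z', 1, -1, hx', hy, Or.inl rfl, Or.inr rfl, ?_⟩
      have h1 := congrArg (fun n : ℕ => (n : ℤ)) h
      push_cast at h1 ⊢
      rw [mul_pow, hodd.neg_one_pow]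
      linarith
  · refine ⟨x', y, C ^ z', -1, 1, hx', hy, Or.inr rfl, Or.inl rfl, ?_⟩
    have h1 := congrArg (fun n : ℕ => (n : ℤ)) h
    push_cast at h1 ⊢
    rw [one_mul]
    linarith

/-- the primes of the first kind: `-1` is a `q`-th power and `A` is not -/
theorem kind_one {q A : ℕ} (hq : q.Prime) (hA : 2 ≤ A) (hn : ¬ ∃ t : ℕ, t ^ q = A) (ε : ℝ) (hε : 0 < ε) :
    ∃ F : Finset ℕ, (∀ r ∈ F, r.Prime ∧ (∃ ι : ZMod r, ι ^ q = -1) ∧
      ¬ ∃ t : ZMod r, t ^ q = (A : ZMod r)) ∧ ∃ L : ℕ, ∀ X : ℕ, L ≤ X → ∀ a : ℕ,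
      (({n : ℕ | ∀ r ∈ F, ¬ r ∣ n} ∩ Set.Ioc a (a + X)).ncard : ℝ) ≤ ε * X := by
  have hdvd : ∀ F : Finset ℕ, {n : ℕ | ∀ r ∈ F, (n : ZMod r) ≠ 0} = {n : ℕ | ∀ r ∈ F, ¬ r ∣ n} := by
    intro F
    ext n
    simp only [Set.mem_ofPred_eq, ne_eq, ZMod.natCast_eq_zero_iff]
  rcases eq_or_ne q 2 with rfl | hq2
  · obtain ⟨F, hF, L, hL⟩ := class_fin
      {r : ℕ | (r.Prime ∧ 4 ∣ r - 1) ∧ ¬ ∃ t : ZMod r, t ^ 2 = (A : ZMod r)} (fun r hr => hr.1.1)
      (Pool.Agent.H755R5.Kum.nonsquare_density_four A (by omega) hn) (fun _ => 0) ε hε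
    refine ⟨F, fun r hr => ?_, L, ?_⟩
    · have h1 := hF r hr
      have : Fact r.Prime := ⟨h1.1.1⟩
      refine ⟨h1.1.1, ?_, h1.2⟩
      have h2 : IsSquare (-1 : ZMod r) := by
        rw [ZMod.exists_sq_eq_neg_one_iff]
        have h3 := h1.1.2
        have := h1.1.1.two_le
        omega
      obtain ⟨ι, hι⟩ := h2
      exact ⟨ι, by rw [pow_two]; exact hι.symm⟩
    · rw [← hdvd]; exact hL
  · obtain ⟨F, hF, L, hL⟩ := class_fin
      (Pool.Agent.H755R5.Kum.NonRes q A) (fun r hr => hr.1.1)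
      (Pool.Agent.H755R5.Kum.kummer_density q A hq (by omega) hn) (fun _ => 0) ε hε
    refine ⟨F, fun r hr => ?_, L, ?_⟩
    · have h1 := hF r hr
      exact ⟨h1.1.1, ⟨-1, (hq.odd_of_ne_two hq2).neg_one_pow⟩, h1.2⟩
    · rw [← hdvd]; exact hL

/-- the primes of the second kind -/
theorem kind_two {q : ℕ} (hq : q.Prime) (ε : ℝ) (hε : 0 < ε) :
    ∃ F : Finset ℕ, (∀ p ∈ F, p.Prime ∧ p ≠ q ∧ (q ≠ 2 → ¬ q ∣ p - 1) ∧ (q = 2 → p % 4 = 3)) ∧
      ∃ L : ℕ, ∀ X : ℕ, L ≤ X → ∀ a : ℕ,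
      (({n : ℕ | ∀ r ∈ F, ¬ r ∣ n} ∩ Set.Ioc a (a + X)).ncard : ℝ) ≤ ε * X := by
  have hdvd : ∀ F : Finset ℕ, {n : ℕ | ∀ r ∈ F, (n : ZMod r) ≠ 0} = {n : ℕ | ∀ r ∈ F, ¬ r ∣ n} := by
    intro F
    ext n
    simp only [Set.mem_ofPred_eq, ne_eq, ZMod.natCast_eq_zero_iff]
  obtain ⟨m, hm⟩ : ∃ m, m = if q = 2 then 4 else q := ⟨_, rfl⟩
  have hm0 : m ≠ 0 := by
    rw [hm]; split_ifs
    · norm_num
    · exact hq.ne_zero
  have : NeZero m := ⟨hm0⟩
  have hdiv := Pool.Agent.Helper379.Div3.not_summable_inv_primes_mod (q := m) (a := -1)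
    isUnit_one.neg
  have hdiv' : ¬ Summable (fun r : ℕ => {r : ℕ | r.Prime ∧ (r : ZMod m) = -1}.indicator
      (fun n : ℕ => (1 : ℝ) / n) r) := by
    intro hs
    apply hdiv
    refine hs.congr ?_
    intro r
    rw [Set.indicator_apply]
    simp only [Set.mem_ofPred_eq]
  obtain ⟨F, hF, L, hL⟩ := class_fin {r : ℕ | r.Prime ∧ (r : ZMod m) = -1} (fun r hr => hr.1) hdiv'
    (fun _ => 0) ε hε
  refine ⟨F, fun p hp => ?_, L, by rw [← hdvd]; exact hL⟩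
  obtain ⟨h1, h2⟩ := hF p hp
  have h3 : m ∣ p + 1 := by
    rw [← ZMod.natCast_eq_zero_iff]
    push_cast
    rw [h2]; ring
  have hp2 := h1.two_le
  rcases eq_or_ne q 2 with hq2 | hq2
  · rw [if_pos hq2] at hm
    subst hm
    refine ⟨h1, ?_, fun h => absurd hq2 h, fun _ => by omega⟩
    rw [hq2]; omega
  · rw [if_neg hq2] at hm
    subst hm
    have hq3 : 3 ≤ m := by
      have := hq.two_le
      omega
    have h4 : ¬ m ∣ p - 1 := by
      intro h5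
      have h6 : m ∣ (p + 1) - (p - 1) := Nat.dvd_sub h3 h5
      have h7 : (p + 1) - (p - 1) = 2 := by omega
      rw [h7] at h6
      have := Nat.le_of_dvd (by norm_num) h6
      omega
    refine ⟨h1, ?_, fun _ => h4, fun h => absurd h hq2⟩
    rintro rfl
    have : p ∣ 1 := (Nat.dvd_add_right (dvd_refl p)).mp h3
    exact h1.one_lt.ne' (Nat.dvd_one.mp this)

end Pool.Agent.TH888.F
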