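import Mathlib
import Pool.Agent.TH888.F.Red
import Pool.Agent.H755R4.Fin

/-!
For every fixed `A ≥ 2`, for almost all `B`, none of the numbers `A ^ x + B ^ y`, `|A ^ x - B ^ y|` is
a perfect power.
-/

set_option autoImplicit false

namespace Pool.Agent.TH888.F

open Finset Filter Topology
open Pool.Agent.TH888.B1 (class_fin polylog_rpow)

/-- the starting theorem `Pool.Agent.Results.MP_509488_nt.EachBase.result` (a form of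
`Pool.Agent.H755R4.core`) -/
theorem each_base : ∀ (K : ℕ) (ε : ℝ), 0 < ε → ∃ Z₀ L : ℕ, ∀ Y b : ℕ, L ≤ Y → b ≤ Y ^ K →
    ∃ T : Set ℕ, T ⊆ Set.Ioc b (b + Y) ∧ (T.ncard : ℝ) ≤ ε * Y ∧ ∀ A : ℕ, 0 < A → A ≤ Y ^ K →
      (({B : ℕ | B ∈ Set.Ioc b (b + Y) ∧ B ∉ T ∧ Nat.Coprime A B ∧
        ∃ x y z C : ℕ, 0 < x ∧ 0 < y ∧ Z₀ ≤ z ∧ 0 < C ∧
          (A ^ x + B ^ y = C ^ z ∨ A ^ x + C ^ z = B ^ y ∨ B ^ y + C ^ z = A ^ x)}.ncard : ℕ) : ℝ) ≤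
        (Y : ℝ) ^ ε := by
  intro K ε hε
  obtain ⟨Z₀, L, hL⟩ := Pool.Agent.H755R4.core (K + 2) (by omega)
    (show 0 < min ε (1 / 2) by positivity)
    (lt_of_le_of_lt (min_le_right _ _) (by norm_num))
  refine ⟨Z₀, max L 2, fun Y b hY hb => ?_⟩
  have hLY : L ≤ Y := (le_max_left _ _).trans hY
  have hY2 : 2 ≤ Y := (le_max_right _ _).trans hY
  have hNK : Y ^ K + Y ≤ Y ^ (K + 2) := by
    have h1 : Y ^ K ≤ Y ^ (K + 1) := Nat.pow_le_pow_right (by omega) (by omega)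
    have h2 : Y ≤ Y ^ (K + 1) := Nat.le_self_pow (by omega) Y
    have h3 : Y ^ (K + 2) = Y ^ (K + 1) * Y := pow_succ _ _
    calc Y ^ K + Y ≤ Y ^ (K + 1) * 2 := by omega
      _ ≤ Y ^ (K + 1) * Y := Nat.mul_le_mul_left _ hY2
      _ = _ := h3.symm
  obtain ⟨T, hTsub, hTc, hT⟩ := hL (Y ^ K + Y) Y b hLY (by omega) hNK
  have hYR : (0 : ℝ) ≤ Y := Nat.cast_nonneg Y
  have hY1 : (1 : ℝ) ≤ Y := by exact_mod_cast (by omega : 1 ≤ Y)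
  refine ⟨T, hTsub, hTc.trans (mul_le_mul_of_nonneg_right (min_le_left _ _) hYR),
    fun A hA hAY => (hT A hA (by omega)).trans
      (Real.rpow_le_rpow_of_exponent_le hY1 (min_le_left _ _))⟩

theorem count_all (q A : ℕ) (hq : q.Prime) (hA : 2 ≤ A) : ∃ C κ : ℕ,
    ∀ S₀ N : ℕ, A + 4 * q + 10 ≤ S₀ → 1 ≤ N → N ≤ 2 ^ S₀ →
      {B : ℕ | 0 < B ∧ B ≤ N ∧ Nat.Coprime A B ∧
        (∃ p, p.Prime ∧ p ≠ q ∧ (q ≠ 2 → ¬ q ∣ p - 1) ∧ p ∣ B ∧ p ≤ S₀) ∧ Sol q A B}.Finite ∧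
      (({B : ℕ | 0 < B ∧ B ≤ N ∧ Nat.Coprime A B ∧
        (∃ p, p.Prime ∧ p ≠ q ∧ (q ≠ 2 → ¬ q ∣ p - 1) ∧ p ∣ B ∧ p ≤ S₀) ∧ Sol q A B}.ncard : ℕ) : ℝ) ≤
        C * (S₀ : ℝ) ^ κ * Real.sqrt N := by
  rcases eq_or_ne q 2 with rfl | hq2
  · obtain ⟨C, κ, h⟩ := count_two A hA
    refine ⟨C, κ, fun S₀ N hS₀ hN hNS => ?_⟩
    obtain ⟨h1, h2⟩ := h S₀ N (by omega) hN hNS
    have hsub : {B : ℕ | 0 < B ∧ B ≤ N ∧ Nat.Coprime A B ∧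
        (∃ p, p.Prime ∧ p ≠ 2 ∧ (2 ≠ 2 → ¬ 2 ∣ p - 1) ∧ p ∣ B ∧ p ≤ S₀) ∧ Sol 2 A B} ⊆
        {B : ℕ | 0 < B ∧ B ≤ N ∧ Nat.Coprime A B ∧
        (∃ p, p.Prime ∧ p ≠ 2 ∧ p ∣ B ∧ p ≤ S₀) ∧ Sol 2 A B} := by
      rintro B ⟨a1, a2, a3, ⟨p, b1, b2, -, b3, b4⟩, a5⟩
      exact ⟨a1, a2, a3, ⟨p, b1, b2, b3, b4⟩, a5⟩
    exact ⟨h1.subset hsub, (Nat.cast_le.mpr (Set.ncard_le_ncard hsub h1)).trans h2⟩
  · obtain ⟨C, κ, h⟩ := count_odd q A hq hq2 hA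
    refine ⟨C, κ, fun S₀ N hS₀ hN hNS => ?_⟩
    obtain ⟨h1, h2⟩ := h S₀ N (by omega) hN hNS
    have hsub : {B : ℕ | 0 < B ∧ B ≤ N ∧ Nat.Coprime A B ∧
        (∃ p, p.Prime ∧ p ≠ q ∧ (q ≠ 2 → ¬ q ∣ p - 1) ∧ p ∣ B ∧ p ≤ S₀) ∧ Sol q A B} ⊆
        {B : ℕ | 0 < B ∧ B ≤ N ∧ Nat.Coprime A B ∧
        (∃ p, p.Prime ∧ p ≠ q ∧ ¬ q ∣ p - 1 ∧ p ∣ B ∧ p ≤ S₀) ∧ Sol q A B} := by
      rintro B ⟨a1, a2, a3, ⟨p, b1, b2, b5, b3, b4⟩, a5⟩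
      exact ⟨a1, a2, a3, ⟨p, b1, b2, b5 hq2, b3, b4⟩, a5⟩
    exact ⟨h1.subset hsub, (Nat.cast_le.mpr (Set.ncard_le_ncard hsub h1)).trans h2⟩

theorem asym (C κ c₀ : ℕ) {ε δ : ℝ} (hε : 0 < ε) (hδ : 0 < δ) (hδ1 : δ ≤ 1) : ∃ L : ℕ, ∀ Y : ℕ,
    L ≤ Y → ∀ N : ℕ, (N : ℝ) ≤ (Y : ℝ) ^ (2 - δ) + Y → ∃ S₀ : ℕ, c₀ ≤ S₀ ∧ N ≤ 2 ^ S₀ ∧
      C * (S₀ : ℝ) ^ κ * Real.sqrt N ≤ ε * Y := by
  obtain ⟨L₁, hL₁⟩ := polylog_rpow (C * (c₀ + 2) ^ κ) κ (δ / 4) (by positivity)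
  have ht1 : Tendsto (fun N : ℕ => (N : ℝ) ^ (δ / 4)) atTop atTop :=
    (tendsto_rpow_atTop (by positivity)).comp tendsto_natCast_atTop_atTop
  have ht2 : Tendsto (fun N : ℕ => (N : ℝ) ^ δ) atTop atTop :=
    (tendsto_rpow_atTop hδ).comp tendsto_natCast_atTop_atTop
  obtain ⟨L₂, hL₂⟩ := eventually_atTop.mp (ht1.eventually_ge_atTop (2 / ε))
  obtain ⟨L₃, hL₃⟩ := eventually_atTop.mp (ht2.eventually_ge_atTop 2)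
  refine ⟨L₁ + L₂ + L₃ + 1, fun Y hY N hN => ?_⟩
  have hY1 : (1 : ℝ) ≤ Y := by
    have : 1 ≤ Y := by omega
    exact_mod_cast this
  have hY0 : (0 : ℝ) < Y := by linarith
  have h1 := hL₁ Y (by omega)
  have h2 := hL₂ Y (by omega)
  have h3 := hL₃ Y (by omega)
  have hN2 : (N : ℝ) ≤ 2 * (Y : ℝ) ^ (2 - δ) := by
    have : (Y : ℝ) ≤ (Y : ℝ) ^ (2 - δ) := by
      calc (Y : ℝ) = (Y : ℝ) ^ (1 : ℝ) := (Real.rpow_one _).symm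
        _ ≤ _ := Real.rpow_le_rpow_of_exponent_le hY1 (by linarith)
    linarith
  have hNY : (N : ℝ) ≤ (Y : ℝ) ^ 2 := by
    calc (N : ℝ) ≤ 2 * (Y : ℝ) ^ (2 - δ) := hN2
      _ ≤ (Y : ℝ) ^ δ * (Y : ℝ) ^ (2 - δ) := mul_le_mul_of_nonneg_right h3 (by positivity)
      _ = (Y : ℝ) ^ (2 : ℝ) := by rw [← Real.rpow_add hY0]; congr 1; ring
      _ = _ := by rw [← Real.rpow_natCast]; norm_num
  refine ⟨c₀ + 2 * (Nat.log 2 Y + 1), by omega, ?_, ?_⟩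
  · have h4 : N ≤ Y ^ 2 := by exact_mod_cast hNY
    have h5 : Y ≤ 2 ^ (Nat.log 2 Y + 1) := (Nat.lt_pow_succ_log_self (by norm_num) Y).le
    calc N ≤ Y ^ 2 := h4
      _ ≤ (2 ^ (Nat.log 2 Y + 1)) ^ 2 := Nat.pow_le_pow_left h5 2
      _ = 2 ^ (2 * (Nat.log 2 Y + 1)) := by rw [← pow_mul, mul_comm]
      _ ≤ _ := Nat.pow_le_pow_right (by norm_num) (by omega)
  · have h4 : C * ((c₀ + 2 * (Nat.log 2 Y + 1) : ℕ) : ℝ) ^ κ ≤ (Y : ℝ) ^ (δ / 4) := by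
      refine le_trans ?_ h1
      push_cast
      rw [mul_assoc, ← mul_pow]
      refine mul_le_mul_of_nonneg_left (pow_le_pow_left₀ (by positivity) ?_ _) (Nat.cast_nonneg _)
      have : (0 : ℝ) ≤ (Nat.log 2 Y : ℝ) := Nat.cast_nonneg _
      have : (0 : ℝ) ≤ (c₀ : ℝ) := Nat.cast_nonneg _
      nlinarith
    have h5 : Real.sqrt N ≤ 2 * (Y : ℝ) ^ (1 - δ / 2) := by
      rw [Real.sqrt_le_left (by positivity)]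
      calc (N : ℝ) ≤ 2 * (Y : ℝ) ^ (2 - δ) := hN2
        _ ≤ 4 * (Y : ℝ) ^ (2 - δ) := mul_le_mul_of_nonneg_right (by norm_num) (by positivity)
        _ = (2 * (Y : ℝ) ^ (1 - δ / 2)) ^ 2 := by
          rw [mul_pow, ← Real.rpow_natCast ((Y : ℝ) ^ (1 - δ / 2)), ← Real.rpow_mul hY0.le]
          norm_num
          congr 1
          ring
    have h6 : 2 ≤ ε * (Y : ℝ) ^ (δ / 4) := by
      rw [div_le_iff₀ hε] at h2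
      linarith
    calc C * ((c₀ + 2 * (Nat.log 2 Y + 1) : ℕ) : ℝ) ^ κ * Real.sqrt N
        ≤ (Y : ℝ) ^ (δ / 4) * (2 * (Y : ℝ) ^ (1 - δ / 2)) :=
          mul_le_mul h4 h5 (Real.sqrt_nonneg _) (by positivity)
      _ = 2 * ((Y : ℝ) ^ (δ / 4) * (Y : ℝ) ^ (1 - δ / 2)) := by ring
      _ ≤ (ε * (Y : ℝ) ^ (δ / 4)) * ((Y : ℝ) ^ (δ / 4) * (Y : ℝ) ^ (1 - δ / 2)) :=
          mul_le_mul_of_nonneg_right h6 (by positivity)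
      _ = ε * Y := by
        rw [mul_assoc, ← Real.rpow_add hY0, ← Real.rpow_add hY0,
          show δ / 4 + (δ / 4 + (1 - δ / 2)) = 1 by ring, Real.rpow_one]

/-- the exponents `z` divisible by the prime `q` -/
theorem q_small (q A : ℕ) (hq : q.Prime) (hA : 2 ≤ A) (hn : ¬ ∃ t : ℕ, t ^ q = A) {ε δ : ℝ}
    (hε : 0 < ε) (hδ : 0 < δ) (hδ1 : δ ≤ 1) : ∃ L : ℕ, ∀ Y : ℕ, L ≤ Y → ∀ b : ℕ,
    (b : ℝ) ≤ (Y : ℝ) ^ (2 - δ) →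
      (({B : ℕ | B ∈ Set.Ioc b (b + Y) ∧ Nat.Coprime A B ∧
        ∃ x y z C : ℕ, 0 < x ∧ 0 < y ∧ q ∣ z ∧ Eqn A B C x y z}.ncard : ℕ) : ℝ) ≤ ε * Y := by
  obtain ⟨F₁, hF₁, L₁, hL₁⟩ := kind_one hq hA hn (ε / 3) (by positivity)
  obtain ⟨F₂, hF₂, L₂, hL₂⟩ := kind_two hq (ε / 3) (by positivity)
  obtain ⟨C₀, κ, hC⟩ := count_all q A hq hA
  obtain ⟨c₀, hc₀⟩ : ∃ c₀, c₀ = A + 4 * q + 10 + F₂.sup id := ⟨_, rfl⟩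
  obtain ⟨L₃, hL₃⟩ := asym C₀ κ c₀ (show 0 < ε / 3 by positivity) hδ hδ1
  refine ⟨L₁ + L₂ + L₃ + 1, fun Y hY b hb => ?_⟩
  obtain ⟨S₀, hS₀, hNS, hfin⟩ := hL₃ Y (by omega) (b + Y) (by push_cast; linarith)
  obtain ⟨hf, hcount⟩ := hC S₀ (b + Y) (by omega) (by omega) hNS
  have hsub : {B : ℕ | B ∈ Set.Ioc b (b + Y) ∧ Nat.Coprime A B ∧
        ∃ x y z C : ℕ, 0 < x ∧ 0 < y ∧ q ∣ z ∧ Eqn A B C x y z} ⊆
      (({n : ℕ | ∀ r ∈ F₁, ¬ r ∣ n} ∩ Set.Ioc b (b + Y)) ∪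
        ({n : ℕ | ∀ r ∈ F₂, ¬ r ∣ n} ∩ Set.Ioc b (b + Y))) ∪
      {B : ℕ | 0 < B ∧ B ≤ b + Y ∧ Nat.Coprime A B ∧
        (∃ p, p.Prime ∧ p ≠ q ∧ (q ≠ 2 → ¬ q ∣ p - 1) ∧ p ∣ B ∧ p ≤ S₀) ∧ Sol q A B} := by
    rintro B ⟨hB, hAB, x, y, z, C, hx, hy, hqz, heq⟩
    by_cases h1 : ∀ r ∈ F₁, ¬ r ∣ B
    · exact Or.inl (Or.inl ⟨h1, hB⟩)
    by_cases h2 : ∀ r ∈ F₂, ¬ r ∣ B
    · exact Or.inl (Or.inr ⟨h2, hB⟩)
    right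
    push Not at h1 h2
    obtain ⟨r, hr, hrB⟩ := h1
    obtain ⟨p, hp, hpB⟩ := h2
    obtain ⟨r1, r2, r3⟩ := hF₁ r hr
    obtain ⟨p1, p2, p3, p4⟩ := hF₂ p hp
    have hqx := force hq r1 hrB hAB r2 r3 hqz hy heq
    refine ⟨by have := hB.1; omega, hB.2, hAB, ⟨p, p1, p2, p3, hpB, ?_⟩,
      to_sol hq hx hy hAB hqz hqx (fun h => ⟨p, p1, p4 h, hpB⟩) heq⟩
    have h3 : p ≤ F₂.sup id := Finset.le_sup (f := id) hp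
    omega
  have hfin' : ((({n : ℕ | ∀ r ∈ F₁, ¬ r ∣ n} ∩ Set.Ioc b (b + Y)) ∪
        ({n : ℕ | ∀ r ∈ F₂, ¬ r ∣ n} ∩ Set.Ioc b (b + Y))) ∪
      {B : ℕ | 0 < B ∧ B ≤ b + Y ∧ Nat.Coprime A B ∧
        (∃ p, p.Prime ∧ p ≠ q ∧ (q ≠ 2 → ¬ q ∣ p - 1) ∧ p ∣ B ∧ p ≤ S₀) ∧ Sol q A B}).Finite :=
    (((Set.finite_Ioc _ _).subset Set.inter_subset_right).union
      ((Set.finite_Ioc _ _).subset Set.inter_subset_right)).union hf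
  have h1 := hL₁ Y (by omega) b
  have h2 := hL₂ Y (by omega) b
  have h3 := (Set.ncard_le_ncard hsub hfin').trans ((Set.ncard_union_le _ _).trans
    (Nat.add_le_add_right (Set.ncard_union_le _ _) _))
  calc _ ≤ _ := Nat.cast_le.mpr h3
    _ ≤ ε / 3 * Y + ε / 3 * Y + ε / 3 * Y := by
      push_cast
      exact add_le_add (add_le_add h1 h2) (hcount.trans hfin)
    _ = ε * Y := by ring

/-- every integer `≥ 2` is a power of one which is not a perfect power -/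
theorem exists_root (A : ℕ) (hA : 2 ≤ A) : ∃ a e : ℕ, 2 ≤ a ∧ 0 < e ∧ a ^ e = A ∧
    ∀ q : ℕ, q.Prime → ¬ ∃ t : ℕ, t ^ q = a := by
  induction A using Nat.strong_induction_on with
  | _ A ih =>
    by_cases h : ∀ q : ℕ, q.Prime → ¬ ∃ t : ℕ, t ^ q = A
    · exact ⟨A, 1, hA, one_pos, pow_one A, h⟩
    · push Not at h
      obtain ⟨q, hq, t, ht⟩ := h
      have ht2 : 2 ≤ t := by
        by_contra hcon
        have : t = 0 ∨ t = 1 := by omega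
        rcases this with rfl | rfl
        · rw [zero_pow hq.ne_zero] at ht; omega
        · rw [one_pow] at ht; omega
      have htA : t < A := by
        calc t = t ^ 1 := (pow_one t).symm
          _ < t ^ q := Nat.pow_lt_pow_right (by omega) hq.one_lt
          _ = A := ht
      obtain ⟨a, e, h1, h2, h3, h4⟩ := ih t htA ht2
      exact ⟨a, e * q, h1, Nat.mul_pos h2 hq.pos, by rw [pow_mul, h3, ht], h4⟩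

/-- the main theorem for `A` which is not a perfect power -/
theorem main_root (A : ℕ) (hA : 2 ≤ A) (hn : ∀ q : ℕ, q.Prime → ¬ ∃ t : ℕ, t ^ q = A) {ε δ : ℝ}
    (hε : 0 < ε) (hδ : 0 < δ) (hδ1 : δ ≤ 1) : ∃ L : ℕ, ∀ Y : ℕ, L ≤ Y → ∀ b : ℕ,
    (b : ℝ) ≤ (Y : ℝ) ^ (2 - δ) →
      (({B : ℕ | B ∈ Set.Ioc b (b + Y) ∧ Nat.Coprime A B ∧
        ∃ x y z C : ℕ, 0 < x ∧ 0 < y ∧ 2 ≤ z ∧ 0 < C ∧ Eqn A B C x y z}.ncard : ℕ) : ℝ) ≤ ε * Y := by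
  classical
  obtain ⟨Z₀, L₀, hL₀⟩ := each_base 2 (min (ε / 4) (1 / 2))
    (by positivity)
  obtain ⟨Q, hQ⟩ : ∃ Q : Finset ℕ, Q = (range Z₀).filter Nat.Prime := ⟨_, rfl⟩
  have hQp : ∀ q ∈ Q, q.Prime := fun q hq => by rw [hQ, mem_filter] at hq; exact hq.2
  have hall : ∀ q : ℕ, ∃ L : ℕ, q.Prime → ∀ Y : ℕ, L ≤ Y → ∀ b : ℕ, (b : ℝ) ≤ (Y : ℝ) ^ (2 - δ) →
      (({B : ℕ | B ∈ Set.Ioc b (b + Y) ∧ Nat.Coprime A B ∧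
        ∃ x y z C : ℕ, 0 < x ∧ 0 < y ∧ q ∣ z ∧ Eqn A B C x y z}.ncard : ℕ) : ℝ) ≤
          (ε / (4 * (Z₀ + 1))) * Y := by
    intro q
    by_cases hq : q.Prime
    · obtain ⟨L, hL⟩ := q_small q A hq hA (hn q hq) (ε := ε / (4 * (Z₀ + 1))) (by positivity) hδ hδ1
      exact ⟨L, fun _ => hL⟩
    · exact ⟨0, fun h => absurd h hq⟩
  choose Lq hLq using hall
  have ht1 : Tendsto (fun N : ℕ => (N : ℝ) ^ (1 / 2 : ℝ)) atTop atTop :=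
    (tendsto_rpow_atTop (by positivity)).comp tendsto_natCast_atTop_atTop
  obtain ⟨L₁, hL₁⟩ := eventually_atTop.mp (ht1.eventually_ge_atTop (4 / ε))
  refine ⟨L₀ + A + L₁ + Q.sup Lq + 1, fun Y hY b hb => ?_⟩
  have hY1 : 1 ≤ Y := by omega
  have hY1R : (1 : ℝ) ≤ Y := by exact_mod_cast hY1
  have hY0 : (0 : ℝ) < Y := by linarith
  have hb2 : b ≤ Y ^ 2 := by
    have : (b : ℝ) ≤ (Y : ℝ) ^ 2 := by
      calc (b : ℝ) ≤ (Y : ℝ) ^ (2 - δ) := hb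
        _ ≤ (Y : ℝ) ^ (2 : ℝ) := Real.rpow_le_rpow_of_exponent_le hY1R (by linarith)
        _ = _ := by rw [← Real.rpow_natCast]; norm_num
    exact_mod_cast this
  obtain ⟨T, hT1, hT2, hT3⟩ := hL₀ Y b (by omega) hb2
  have hT4 := hT3 A (by omega) (by
    calc A ≤ Y := by omega
      _ ≤ Y ^ 2 := Nat.le_self_pow (by norm_num) Y)
  set E₁ : Set ℕ := {B : ℕ | B ∈ Set.Ioc b (b + Y) ∧ B ∉ T ∧ Nat.Coprime A B ∧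
        ∃ x y z C : ℕ, 0 < x ∧ 0 < y ∧ Z₀ ≤ z ∧ 0 < C ∧
          (A ^ x + B ^ y = C ^ z ∨ A ^ x + C ^ z = B ^ y ∨ B ^ y + C ^ z = A ^ x)} with hE₁
  set E₂ : ℕ → Set ℕ := fun q => {B : ℕ | B ∈ Set.Ioc b (b + Y) ∧ Nat.Coprime A B ∧
        ∃ x y z C : ℕ, 0 < x ∧ 0 < y ∧ q ∣ z ∧ Eqn A B C x y z} with hE₂
  have hsub : {B : ℕ | B ∈ Set.Ioc b (b + Y) ∧ Nat.Coprime A B ∧
        ∃ x y z C : ℕ, 0 < x ∧ 0 < y ∧ 2 ≤ z ∧ 0 < C ∧ Eqn A B C x y z} ⊆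
      (T ∪ E₁) ∪ ⋃ q ∈ Q, E₂ q := by
    rintro B ⟨hB, hAB, x, y, z, C, hx, hy, hz, hC, heq⟩
    by_cases hBT : B ∈ T
    · exact Or.inl (Or.inl hBT)
    rcases Nat.lt_or_ge z Z₀ with h1 | h1
    · right
      obtain ⟨q, hq, hqz⟩ := Nat.exists_prime_and_dvd (show z ≠ 1 by omega)
      have hqQ : q ∈ Q := by
        rw [hQ, mem_filter, mem_range]
        exact ⟨lt_of_le_of_lt (Nat.le_of_dvd (by omega) hqz) h1, hq⟩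
      rw [Set.mem_iUnion₂]
      exact ⟨q, hqQ, hB, hAB, x, y, z, C, hx, hy, hqz, heq⟩
    · exact Or.inl (Or.inr ⟨hB, hBT, hAB, x, y, z, C, hx, hy, h1, hC, heq⟩)
  have hfI : (Set.Ioc b (b + Y)).Finite := Set.finite_Ioc _ _
  have hfin : ((T ∪ E₁) ∪ ⋃ q ∈ Q, E₂ q).Finite := by
    refine hfI.subset ?_
    rintro B ((h1 | h1) | h1)
    · exact hT1 h1
    · exact h1.1
    · rw [Set.mem_iUnion₂] at h1
      obtain ⟨q, -, h2⟩ := h1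
      exact h2.1
  have hU : ((⋃ q ∈ Q, E₂ q).ncard : ℝ) ≤ ε / 4 * Y := by
    have h1 : (⋃ q ∈ Q, E₂ q).ncard ≤ ∑ q ∈ Q, (E₂ q).ncard := Finset.set_ncard_biUnion_le Q E₂
    have h2 : ∀ q ∈ Q, ((E₂ q).ncard : ℝ) ≤ (ε / (4 * (Z₀ + 1))) * Y := by
      intro q hq
      refine hLq q (hQp q hq) Y ?_ b hb
      have : Lq q ≤ Q.sup Lq := Finset.le_sup hq
      omega
    have h3 : (Q.card : ℝ) ≤ Z₀ + 1 := by
      have : Q.card ≤ Z₀ := by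
        rw [hQ]
        exact (card_filter_le _ _).trans (card_range Z₀).le
      have : (Q.card : ℝ) ≤ Z₀ := by exact_mod_cast this
      linarith
    calc ((⋃ q ∈ Q, E₂ q).ncard : ℝ) ≤ ((∑ q ∈ Q, (E₂ q).ncard : ℕ) : ℝ) := Nat.cast_le.mpr h1
      _ = ∑ q ∈ Q, ((E₂ q).ncard : ℝ) := by push_cast; rfl
      _ ≤ ∑ q ∈ Q, (ε / (4 * (Z₀ + 1))) * Y := Finset.sum_le_sum h2
      _ = Q.card * ((ε / (4 * (Z₀ + 1))) * Y) := by rw [sum_const, nsmul_eq_mul]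
      _ ≤ (Z₀ + 1) * ((ε / (4 * (Z₀ + 1))) * Y) := mul_le_mul_of_nonneg_right h3 (by positivity)
      _ = ε / 4 * Y := by
        have : (Z₀ : ℝ) + 1 ≠ 0 := by positivity
        field_simp
  have hTc : (T.ncard : ℝ) ≤ ε / 4 * Y :=
    hT2.trans (mul_le_mul_of_nonneg_right (min_le_left _ _) hY0.le)
  have hE₁c : (E₁.ncard : ℝ) ≤ ε / 4 * Y := by
    have h1 := hL₁ Y (by omega)
    calc (E₁.ncard : ℝ) ≤ (Y : ℝ) ^ (min (ε / 4) (1 / 2 : ℝ)) := hT4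
      _ ≤ (Y : ℝ) ^ (1 / 2 : ℝ) := Real.rpow_le_rpow_of_exponent_le hY1R (min_le_right _ _)
      _ = 1 * (Y : ℝ) ^ (1 / 2 : ℝ) := (one_mul _).symm
      _ ≤ (ε / 4 * (Y : ℝ) ^ (1 / 2 : ℝ)) * (Y : ℝ) ^ (1 / 2 : ℝ) := by
        refine mul_le_mul_of_nonneg_right ?_ (by positivity)
        rw [div_le_iff₀ hε] at h1
        linarith
      _ = ε / 4 * Y := by
        rw [mul_assoc, ← Real.rpow_add hY0, show (1 / 2 : ℝ) + 1 / 2 = 1 by norm_num, Real.rpow_one]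
  have h3 := (Set.ncard_le_ncard hsub hfin).trans ((Set.ncard_union_le _ _).trans
    (Nat.add_le_add_right (Set.ncard_union_le _ _) _))
  calc _ ≤ _ := Nat.cast_le.mpr h3
    _ ≤ ε / 4 * Y + ε / 4 * Y + ε / 4 * Y := by
      push_cast
      exact add_le_add (add_le_add hTc hE₁c) hU
    _ ≤ ε * Y := by nlinarith

/-- the main theorem -/
theorem main (A : ℕ) (hA : 2 ≤ A) {ε δ : ℝ}
    (hε : 0 < ε) (hδ : 0 < δ) (hδ1 : δ ≤ 1) : ∃ L : ℕ, ∀ Y : ℕ, L ≤ Y → ∀ b : ℕ,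
    (b : ℝ) ≤ (Y : ℝ) ^ (2 - δ) →
      (({B : ℕ | B ∈ Set.Ioc b (b + Y) ∧ Nat.Coprime A B ∧
        ∃ x y z C : ℕ, 0 < x ∧ 0 < y ∧ 2 ≤ z ∧ 0 < C ∧ Eqn A B C x y z}.ncard : ℕ) : ℝ) ≤ ε * Y := by
  obtain ⟨a, e, ha, he, rfl, hn⟩ := exists_root A hA
  obtain ⟨L, hL⟩ := main_root a ha hn hε hδ hδ1
  refine ⟨L, fun Y hY b hb => le_trans ?_ (hL Y hY b hb)⟩
  refine Nat.cast_le.mpr (Set.ncard_le_ncard ?_ ((Set.finite_Ioc b (b + Y)).subset fun B hB => hB.1))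
  rintro B ⟨hB, hAB, x, y, z, C, hx, hy, hz, hC, heq⟩
  refine ⟨hB, (Nat.coprime_pow_left_iff he _ _).mp hAB, e * x, y, z, C, Nat.mul_pos he hx, hy, hz,
    hC, ?_⟩
  unfold Eqn at heq ⊢
  rw [pow_mul]
  exact heq

end Pool.Agent.TH888.F
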